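import Pool.Agent.helper23.BN.Basic

set_option autoImplicit false
open MeasureTheory Filter Topology Set Metric
open scoped ContDiff Gradient RealInnerProductSpace ENNReal

noncomputable section
namespace Pool.Agent.helper13.BN
variable {N : ℕ}

/-! ### Module A6 (`BN/Refl.lean`) -/

/-- action of a linear isometry on `L²` vector fields: `(rot R w)(x) = R⁻¹ (w (R x))` -/
theorem exists_rot (R : E N ≃ₗᵢ[ℝ] E N) : ∃ A : LV N →ₗᵢ[ℝ] LV N,
    ∀ w : LV N, (A w : E N → E N) =ᵐ[volume] fun x => R.symm (w (R x)) := by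
  have hR : MeasurePreserving (R : E N → E N) volume volume := R.measurePreserving
  let L : E N →L[ℝ] E N := R.symm.toContinuousLinearEquiv.toContinuousLinearMap
  let B : LV N →L[ℝ] LV N := L.compLpL 2 volume
  let Cm : LV N →ₗᵢ[ℝ] LV N := Lp.compMeasurePreservingₗᵢ ℝ (R : E N → E N) hR
  have hval : ∀ w : LV N, (B (Cm w) : E N → E N) =ᵐ[volume] fun x => R.symm (w (R x)) := by
    intro w
    have h1 := L.coeFn_compLpL (Cm w)
    have h2 : (Cm w : E N → E N) =ᵐ[volume] (w : E N → E N) ∘ R :=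
      Lp.coeFn_compMeasurePreserving w hR
    filter_upwards [h1, h2] with x hx1 hx2
    change (L.compLpL 2 volume (Cm w) : E N → E N) x = _
    rw [hx1, hx2]
    rfl
  refine ⟨⟨(B : LV N →ₗ[ℝ] LV N) ∘ₗ Cm.toLinearMap, ?_⟩, ?_⟩
  · intro w
    change ‖B (Cm w)‖ = ‖w‖
    rw [← Cm.norm_map w, Lp.norm_def, Lp.norm_def]
    congr 1
    refine eLpNorm_congr_norm_ae ?_
    have h1 := L.coeFn_compLpL (Cm w)
    filter_upwards [h1] with x hx1
    change ‖(L.compLpL 2 volume (Cm w) : E N → E N) x‖ = _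
    rw [hx1]
    exact R.symm.norm_map _
  · intro w
    exact hval w

/-- The action of a linear isometry on `L²` vector fields. -/
def rot (R : E N ≃ₗᵢ[ℝ] E N) : LV N →ₗᵢ[ℝ] LV N := (exists_rot R).choose

theorem rot_spec (R : E N ≃ₗᵢ[ℝ] E N) (w : LV N) :
    (rot R w : E N → E N) =ᵐ[volume] fun x => R.symm (w (R x)) := (exists_rot R).choose_spec w

theorem Rf.rot_rot_symm (R : E N ≃ₗᵢ[ℝ] E N) (w : LV N) : rot R (rot R.symm w) = w := by
  refine Lp.ext ?_
  have hR : MeasurePreserving (R : E N → E N) volume volume := R.measurePreserving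
  have h1 := rot_spec R (rot R.symm w)
  have h2 := hR.quasiMeasurePreserving.ae (rot_spec R.symm w)
  filter_upwards [h1, h2] with x hx1 hx2
  rw [hx1, hx2]
  simp

theorem Rf.isTest_comp {R : E N ≃ₗᵢ[ℝ] E N} {Ω : Set (E N)} (hR : ∀ x, x ∈ Ω ↔ R x ∈ Ω)
    {φ : E N → ℝ} (h : IsTest Ω φ) : IsTest Ω (fun x => φ (R x)) := by
  obtain ⟨h1, h2, h3⟩ := h
  refine ⟨h1.comp R.contDiff, ?_, ?_⟩
  · exact h2.comp_homeomorph R.toHomeomorph
  · have : tsupport (fun x => φ (R x)) = R ⁻¹' tsupport φ := by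
      exact tsupport_comp_eq_preimage φ R.toHomeomorph
    rw [this]
    intro x hx
    exact (hR x).2 (h3 hx)

theorem Rf.grad_comp (R : E N ≃ₗᵢ[ℝ] E N) {φ : E N → ℝ} (h : Differentiable ℝ φ) (x : E N) :
    ∇ (fun y => φ (R y)) x = R.symm (∇ φ (R x)) := by
  have h1 : HasGradientAt φ (∇ φ (R x)) (R x) := (h (R x)).hasGradientAt
  have h2 : HasFDerivAt (fun y => φ (R y)) ((innerSL ℝ (∇ φ (R x))).comp
      (R.toContinuousLinearEquiv : E N →L[ℝ] E N)) x := by
    have := h1.hasFDerivAt.comp x (R.toContinuousLinearEquiv.hasFDerivAt (x := x))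
    exact this
  have h3 : HasGradientAt (fun y => φ (R y)) (R.symm (∇ φ (R x))) x := by
    rw [hasGradientAt_iff_hasFDerivAt]
    have h4 : (InnerProductSpace.toDual ℝ (E N)) (R.symm (∇ φ (R x))) =
        (innerSL ℝ (∇ φ (R x))).comp (R.toContinuousLinearEquiv : E N →L[ℝ] E N) := by
      apply ContinuousLinearMap.ext
      intro v
      change ⟪R.symm (∇ φ (R x)), v⟫ = ⟪∇ φ (R x), R v⟫
      rw [← R.inner_map_map (R.symm (∇ φ (R x))) v]
      simp
    rw [h4]
    exact h2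
  exact h3.gradient

theorem Rf.isGrad_comp (R : E N ≃ₗᵢ[ℝ] E N) {φ : E N → ℝ} {W : LV N} (h : Differentiable ℝ φ)
    (hW : IsGrad W φ) : IsGrad (rot R W) (fun x => φ (R x)) := by
  have hR : MeasurePreserving (R : E N → E N) volume volume := R.measurePreserving
  have h1 := rot_spec R W
  have h2 := hR.quasiMeasurePreserving.ae hW
  unfold IsGrad
  filter_upwards [h1, h2] with x hx1 hx2
  rw [hx1, hx2, Rf.grad_comp R h]

theorem rot_mem (R : E N ≃ₗᵢ[ℝ] E N) {Ω : Set (E N)} (hR : ∀ x, x ∈ Ω ↔ R x ∈ Ω) {w : LV N}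
    (hw : w ∈ DD Ω) : rot R w ∈ DD Ω := by
  obtain ⟨φ, W, hφ, hlim⟩ := DD_seq.1 hw
  refine DD_seq.2 ⟨fun n x => φ n (R x), fun n => rot R (W n), fun n => ⟨?_, ?_⟩, ?_⟩
  · exact Rf.isTest_comp hR (hφ n).1
  · exact Rf.isGrad_comp R ((hφ n).1.1.differentiable (by simp)) (hφ n).2
  · exact ((rot R).continuous.tendsto w).comp hlim

theorem fn_rot (hN : 3 ≤ N) (R : E N ≃ₗᵢ[ℝ] E N) {w : LV N} (hw : w ∈ DD univ) :
    fn (rot R w) =ᵐ[volume] fun x => fn w (R x) := by
  have hR : MeasurePreserving (R : E N → E N) volume volume := R.measurePreserving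
  apply fn_ae hN
  obtain ⟨hm, φ, W, hφ, hlim, hlim2⟩ := isFn_fn hN hw
  refine ⟨hm.comp_measurePreserving hR, fun n x => φ n (R x), fun n => rot R (W n),
    fun n => ⟨?_, ?_⟩, ?_, ?_⟩
  · exact Rf.isTest_comp (fun x => by simp) (hφ n).1
  · exact Rf.isGrad_comp R ((hφ n).1.1.differentiable (by simp)) (hφ n).2
  · exact ((rot R).continuous.tendsto w).comp hlim
  · refine hlim2.congr fun n => ?_
    have hmn : AEStronglyMeasurable (fun x => φ n x - fn w x) volume :=
      ((hφ n).1.1.continuous.aestronglyMeasurable).sub hm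
    exact (eLpNorm_comp_measurePreserving hmn hR).symm

theorem weak_rot (R : E N ≃ₗᵢ[ℝ] E N) {Ω : Set (E N)} (hR : ∀ x, x ∈ Ω ↔ R x ∈ Ω) {w : LV N}
    {g : E N → ℝ} (hw : Weak Ω w g) : Weak Ω (rot R w) (fun x => g (R x)) := by
  have hRm : MeasurePreserving (R : E N → E N) volume volume := R.measurePreserving
  refine ⟨rot_mem R hR hw.1, fun φ W hφ hW => ?_⟩
  have hR' : ∀ x, x ∈ Ω ↔ R.symm x ∈ Ω := fun x => by
    have := hR (R.symm x)
    simpa using this.symm
  have h1 : IsTest Ω (fun x => φ (R.symm x)) := Rf.isTest_comp (R := R.symm) hR' hφ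
  have h2 : IsGrad (rot R.symm W) (fun x => φ (R.symm x)) :=
    Rf.isGrad_comp R.symm (hφ.1.differentiable (by simp)) hW
  have h3 := hw.2 _ _ h1 h2
  calc ⟪rot R w, W⟫ = ⟪rot R w, rot R (rot R.symm W)⟫ := by rw [Rf.rot_rot_symm]
    _ = ⟪w, rot R.symm W⟫ := (rot R).inner_map_map _ _
    _ = ∫ x, g x * φ (R.symm x) := h3
    _ = ∫ x, g (R x) * φ (R.symm (R x)) :=
      (hRm.integral_comp R.toHomeomorph.measurableEmbedding (fun x => g x * φ (R.symm x))).symm
    _ = ∫ x, g (R x) * φ x := by simp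


/-- The reflection as an isometry. -/
def Rf.reflI (n : E N) : E N ≃ₗᵢ[ℝ] E N := (ℝ ∙ n)ᗮ.reflection

theorem Rf.reflI_apply {n : E N} (hn : ‖n‖ = 1) (x : E N) : Rf.reflI n x = refl n x := by
  unfold Rf.reflI refl
  rw [Submodule.reflection_orthogonal_apply, Submodule.reflection_singleton_apply]
  simp only [hn, real_inner_comm x n, RCLike.ofReal_real_eq_id, id_eq, one_pow, div_one, neg_sub]
  rw [two_smul ℕ, two_mul, add_smul]

theorem Rf.inner_refl {n : E N} (hn : ‖n‖ = 1) (x : E N) : ⟪refl n x, n⟫ = -⟪x, n⟫ := by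
  unfold refl
  rw [inner_sub_left, real_inner_smul_left, real_inner_self_eq_norm_sq, hn]
  ring

theorem Rf.refl_refl {n : E N} (hn : ‖n‖ = 1) (x : E N) : refl n (refl n x) = x := by
  rw [refl, Rf.inner_refl hn]
  unfold refl
  simp

theorem Rf.norm_refl {n : E N} (hn : ‖n‖ = 1) (x : E N) : ‖refl n x‖ = ‖x‖ := by
  rw [← Rf.reflI_apply hn]; exact (Rf.reflI n).norm_map x

theorem Rf.norm_sub_refl {n : E N} (hn : ‖n‖ = 1) (x : E N) : ‖x - refl n x‖ = 2 * |⟪x, n⟫| := by
  unfold refl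
  simp [norm_smul, hn]

theorem Rf.tendsto_eLpNorm_dom {F : Type*} [NormedAddCommGroup F] {f : ℕ → E N → F} {p : ℝ}
    (hp : 0 < p) {C : ℝ} {K : Set (E N)} (hK : IsCompact K)
    (hm : ∀ n, AEStronglyMeasurable (f n) volume) (hb : ∀ n, ∀ᵐ x, ‖f n x‖ ≤ C)
    (hs : ∀ n, ∀ᵐ x, x ∉ K → f n x = 0)
    (hlim : ∀ᵐ x, Tendsto (fun n => f n x) atTop (𝓝 0)) :
    Tendsto (fun n => eLpNorm (f n) (ENNReal.ofReal p) volume) atTop (𝓝 0) := by
  have hp0 : ENNReal.ofReal p ≠ 0 := by simpa using hp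
  have h1 : ∀ n, eLpNorm (f n) (ENNReal.ofReal p) volume = (∫⁻ x, ‖f n x‖ₑ ^ p) ^ (1 / p) := by
    intro n
    rw [eLpNorm_eq_lintegral_rpow_enorm_toReal hp0 ENNReal.ofReal_ne_top,
      ENNReal.toReal_ofReal hp.le]
  simp only [h1]
  have h2 : Tendsto (fun n => ∫⁻ x, ‖f n x‖ₑ ^ p) atTop (𝓝 (∫⁻ _ : E N, 0)) := by
    refine tendsto_lintegral_of_dominated_convergence'
      (K.indicator (fun _ => (ENNReal.ofReal C) ^ p)) (fun n => ?_) (fun n => ?_) ?_ ?_
    · exact (hm n).enorm.pow_const p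
    · filter_upwards [hb n, hs n] with x h3 h4
      by_cases hx : x ∈ K
      · rw [indicator_of_mem hx]
        refine ENNReal.rpow_le_rpow ?_ hp.le
        rw [← ofReal_norm]
        exact ENNReal.ofReal_le_ofReal h3
      · rw [indicator_of_notMem hx, h4 hx]
        simp [hp]
    · rw [lintegral_indicator hK.measurableSet, setLIntegral_const]
      exact ENNReal.mul_ne_top (ENNReal.rpow_ne_top_of_nonneg hp.le ENNReal.ofReal_ne_top)
        hK.measure_lt_top.ne
    · filter_upwards [hlim] with x hx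
      have h5 : Tendsto (fun n => ‖f n x‖ₑ) atTop (𝓝 0) := by
        have := hx.enorm
        simpa using this
      have h6 := (ENNReal.continuous_rpow_const (y := p)).tendsto 0
      rw [ENNReal.zero_rpow_of_pos hp] at h6
      exact h6.comp h5
  rw [lintegral_zero] at h2
  have h6 := (ENNReal.continuous_rpow_const (y := 1 / p)).tendsto 0
  rw [ENNReal.zero_rpow_of_pos (by positivity)] at h6
  exact h6.comp h2


theorem Rf.ts_ge_one (hN : 3 ≤ N) : 1 ≤ ts N := by
  unfold ts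
  have : (3 : ℝ) ≤ N := by exact_mod_cast hN
  rw [le_div_iff₀ (by linarith)]
  linarith

/-- limits in `D` and in `L^{2*}` -/
theorem Rf.fn_lim (hN : 3 ≤ N) {Ω' : Set (E N)} {W : ℕ → LV N} {v : LV N} {u : E N → ℝ}
    (hW : ∀ n, W n ∈ DD Ω') (h : Tendsto W atTop (𝓝 v)) (hu : AEStronglyMeasurable u volume)
    (h2 : Tendsto (fun n => eLpNorm (fun x => fn (W n) x - u x) (ENNReal.ofReal (ts N)) volume)
      atTop (𝓝 0)) :
    v ∈ DD Ω' ∧ fn v =ᵐ[volume] u := by
  have hv : v ∈ DD Ω' := by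
    have hc : IsClosed (DD Ω' : Set (LV N)) := Submodule.isClosed_topologicalClosure _
    exact hc.mem_of_tendsto h (Filter.Eventually.of_forall hW)
  have hle : DD Ω' ≤ DD univ := DD_mono (subset_univ _)
  refine ⟨hv, ?_⟩
  obtain ⟨S, hS, hSob⟩ := exists_sob N hN
  have hts := Rf.ts_ge_one hN
  have h1p : (1 : ℝ≥0∞) ≤ ENNReal.ofReal (ts N) := by
    rw [← ENNReal.ofReal_one]; exact ENNReal.ofReal_le_ofReal hts
  have h3 : ∀ n, eLpNorm (fun x => fn v x - fn (W n) x) (ENNReal.ofReal (ts N)) volume ≤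
      ENNReal.ofReal (S * ‖v - W n‖) := by
    intro n
    have h4 := hSob (v - W n) ((DD univ).sub_mem (hle hv) (hle (hW n)))
    have h5 : eLpNorm (fun x => fn v x - fn (W n) x) (ENNReal.ofReal (ts N)) volume =
        eLpNorm (fn (v - W n)) (ENNReal.ofReal (ts N)) volume :=
      eLpNorm_congr_ae (fn_sub hN (hle hv) (hle (hW n))).symm
    rw [h5]
    have h6 := h4.1.2
    have h7 := h4.2
    unfold nq at h7
    rw [Measure.restrict_univ] at h6 h7
    rw [← ENNReal.ofReal_toReal h6.ne]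
    exact ENNReal.ofReal_le_ofReal h7
  have h4 : Tendsto (fun n => ENNReal.ofReal (S * ‖v - W n‖)) atTop (𝓝 0) := by
    have : Tendsto (fun n => S * ‖v - W n‖) atTop (𝓝 (S * ‖v - v‖)) :=
      (tendsto_const_nhds.sub h).norm.const_mul S
    rw [sub_self, norm_zero, mul_zero] at this
    have := (ENNReal.continuous_ofReal.tendsto 0).comp this
    rwa [ENNReal.ofReal_zero] at this
  have h5 : eLpNorm (fun x => fn v x - u x) (ENNReal.ofReal (ts N)) volume ≤ 0 := by
    have h6 := h4.add h2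
    rw [add_zero] at h6
    refine ge_of_tendsto' h6 fun n => ?_
    have h7 : (fun x => fn v x - u x) =
        (fun x => fn v x - fn (W n) x) + fun x => fn (W n) x - u x := by
      ext x; simp
    rw [h7]
    refine (eLpNorm_add_le ((fn_meas v).sub (fn_meas _)) ((fn_meas _).sub hu) h1p).trans ?_
    exact add_le_add (h3 n) le_rfl
  have h6 := (eLpNorm_eq_zero_iff ((fn_meas v).sub hu) (by simp; linarith)).1
    (le_antisymm h5 zero_le)
  filter_upwards [h6] with x hx
  have : fn v x - u x = 0 := hx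
  linarith

/-- the cut-off function -/
def Rf.cut (t : ℝ) : ℝ := Real.smoothTransition (t - 1)

theorem Rf.cut_contDiff : ContDiff ℝ ∞ Rf.cut :=
  Real.smoothTransition.contDiff.comp (contDiff_id.sub contDiff_const)

theorem Rf.cut_zero {t : ℝ} (h : t ≤ 1) : Rf.cut t = 0 :=
  Real.smoothTransition.zero_of_nonpos (by linarith)

theorem Rf.cut_one {t : ℝ} (h : 2 ≤ t) : Rf.cut t = 1 :=
  Real.smoothTransition.one_of_one_le (by linarith)

theorem Rf.cut_nonneg (t : ℝ) : 0 ≤ Rf.cut t := Real.smoothTransition.nonneg _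

theorem Rf.cut_le_one (t : ℝ) : Rf.cut t ≤ 1 := Real.smoothTransition.le_one _

theorem Rf.deriv_cut_lo {t : ℝ} (h : t < 1) : deriv Rf.cut t = 0 := by
  have : Rf.cut =ᶠ[𝓝 t] fun _ => 0 := by
    filter_upwards [gt_mem_nhds h] with s hs
    exact Rf.cut_zero hs.le
  rw [this.deriv_eq]; simp

theorem Rf.deriv_cut_hi {t : ℝ} (h : 2 < t) : deriv Rf.cut t = 0 := by
  have : Rf.cut =ᶠ[𝓝 t] fun _ => 1 := by
    filter_upwards [lt_mem_nhds h] with s hs
    exact Rf.cut_one (le_of_lt hs)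
  rw [this.deriv_eq]; simp

theorem Rf.exists_cut_bound : ∃ M : ℝ, 0 ≤ M ∧ ∀ t, |t * deriv Rf.cut t| ≤ M := by
  have hc : Continuous (fun t => t * deriv Rf.cut t) :=
    continuous_id.mul (Rf.cut_contDiff.continuous_deriv (by simp))
  obtain ⟨M, hM⟩ := (isCompact_Icc (a := (0 : ℝ)) (b := 3)).exists_bound_of_continuousOn
    hc.continuousOn
  refine ⟨max M 0, le_max_right _ _, fun t => ?_⟩
  by_cases h1 : t < 1
  · rw [Rf.deriv_cut_lo h1]; simp
  by_cases h2 : 2 < t
  · rw [Rf.deriv_cut_hi h2]; simp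
  push Not at h1 h2
  exact (hM t ⟨by linarith, by linarith⟩).trans (le_max_left _ _)

theorem Rf.meas_half (n : E N) : MeasurableSet {x : E N | 0 < ⟪x, n⟫} :=
  (isOpen_lt continuous_const (by fun_prop)).measurableSet

theorem Rf.half_test (hN : 3 ≤ N) {Ω : Set (E N)} {n : E N} (hn : ‖n‖ = 1) {φ : E N → ℝ} {W : LV N}
    (h : IsTest Ω φ) (hW : IsGrad W φ) (hodd : ∀ x, φ (refl n x) = -φ x) :
    ∃ W' ∈ DD (Ω ∩ {x | 0 < ⟪x, n⟫}),
      (W' : E N → E N) =ᵐ[volume] {x | 0 < ⟪x, n⟫}.indicator (fun x => W x) ∧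
      fn W' =ᵐ[volume] {x | 0 < ⟪x, n⟫}.indicator φ := by
  set H : Set (E N) := {x | 0 < ⟪x, n⟫} with hHdef
  have hHm : MeasurableSet H := Rf.meas_half n
  obtain ⟨hφ, hcs, hts⟩ := h
  obtain ⟨L, hL⟩ := hφ.lipschitzWith_of_hasCompactSupport hcs (by simp)
  obtain ⟨M, hM0, hM⟩ := Rf.exists_cut_bound
  have hφ1 : ∀ x, |φ x| ≤ L * |⟪x, n⟫| := by
    intro x
    have h1 := hL.dist_le_mul x (refl n x)
    rw [Real.dist_eq, hodd, dist_eq_norm, Rf.norm_sub_refl hn] at h1
    have h2 : |φ x - -φ x| = 2 * |φ x| := by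
      rw [sub_neg_eq_add, ← two_mul, abs_mul, abs_two]
    rw [h2] at h1
    linarith
  have hgrad : ∀ x, ‖∇ φ x‖ ≤ L := by
    intro x
    unfold gradient
    rw [LinearIsometryEquiv.norm_map]
    exact norm_fderiv_le_of_lipschitz ℝ hL
  obtain ⟨B, hB⟩ := hcs.exists_bound_of_continuous hφ.continuous
  let Φ : ℕ → E N → ℝ := fun k x => Rf.cut ((k + 1) * ⟪x, n⟫) * φ x
  have hΦs : ∀ k, ContDiff ℝ ∞ (Φ k) := fun k =>
    (Rf.cut_contDiff.comp (contDiff_const.mul (contDiff_id.inner ℝ contDiff_const))).mul hφ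
  have hΦt : ∀ k, tsupport (Φ k) ⊆ tsupport φ := fun k => tsupport_mul_subset_right
  have hΦt2 : ∀ k, tsupport (Φ k) ⊆ H := by
    intro k x hx
    have h1 : tsupport (Φ k) ⊆ {x : E N | 1 ≤ ((k : ℝ) + 1) * ⟪x, n⟫} := by
      refine closure_minimal ?_ (isClosed_le continuous_const (by fun_prop))
      intro y hy
      by_contra h2
      simp only [mem_ofPred_eq, not_le] at h2
      apply hy
      change Rf.cut ((k + 1) * ⟪y, n⟫) * φ y = 0
      rw [Rf.cut_zero h2.le, zero_mul]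
    have h2 := h1 hx
    simp only [mem_ofPred_eq] at h2
    have h3 : (0 : ℝ) < k + 1 := by positivity
    by_contra h4
    simp only [hHdef, mem_ofPred_eq, not_lt] at h4
    nlinarith
  have hΦcs : ∀ k, HasCompactSupport (Φ k) := fun k => hcs.mono' (
    (subset_tsupport _).trans (hΦt k))
  have hΦtest : ∀ k, IsTest (Ω ∩ H) (Φ k) := fun k =>
    ⟨hΦs k, hΦcs k, subset_inter ((hΦt k).trans hts) (hΦt2 k)⟩
  have hdφ : Differentiable ℝ φ := hφ.differentiable (by simp)
  have hgradΦ : ∀ k x, ∇ (Φ k) x = Rf.cut ((k + 1) * ⟪x, n⟫) • ∇ φ x +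
      (((k + 1) * deriv Rf.cut ((k + 1) * ⟪x, n⟫)) * φ x) • n := by
    intro k x
    have h1 : HasFDerivAt (fun y : E N => ((k : ℝ) + 1) * ⟪y, n⟫)
        (((k : ℝ) + 1) • (innerSL ℝ n)) x := by
      have : HasFDerivAt (fun y : E N => ⟪n, y⟫) (innerSL ℝ n) x :=
        (innerSL ℝ n).hasFDerivAt
      have h2 : (fun y : E N => ((k : ℝ) + 1) * ⟪y, n⟫) = fun y => ((k : ℝ) + 1) • ⟪n, y⟫ := by
        ext y; rw [real_inner_comm, smul_eq_mul]
      rw [h2]
      exact this.const_smul ((k : ℝ) + 1)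
    have h2 : HasDerivAt Rf.cut (deriv Rf.cut ((k + 1) * ⟪x, n⟫)) ((k + 1) * ⟪x, n⟫) :=
      ((Rf.cut_contDiff.differentiable (by simp)) _).hasDerivAt
    have h3 := (h2.comp_hasFDerivAt x h1).mul (hdφ x).hasFDerivAt
    have h4 : HasGradientAt (Φ k) (Rf.cut ((k + 1) * ⟪x, n⟫) • ∇ φ x +
      (((k + 1) * deriv Rf.cut ((k + 1) * ⟪x, n⟫)) * φ x) • n) x := by
      rw [hasGradientAt_iff_hasFDerivAt]
      refine h3.congr_fderiv ?_
      apply ContinuousLinearMap.ext
      intro v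
      have h5 : fderiv ℝ φ x v = ⟪∇ φ x, v⟫ := by
        unfold gradient
        rw [InnerProductSpace.toDual_symm_apply]
      simp only [Function.comp_apply, add_apply, smul_apply,
        InnerProductSpace.toDual_apply_apply, inner_add_left, real_inner_smul_left, smul_eq_mul, h5,
        innerSL_apply_apply]
      ring
    exact h4.gradient
  choose Wk hWk using fun k => exists_isGrad ((hΦs k).of_le (by simp)) (hΦcs k)
  have hVm : MemLp (H.indicator (fun x => W x)) 2 volume := (Lp.memLp W).indicator hHm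
  let V : LV N := hVm.toLp
  have hV : (V : E N → E N) =ᵐ[volume] H.indicator (fun x => W x) := hVm.coeFn_toLp
  -- pointwise facts
  have hbound : ∀ k x, ‖∇ (Φ k) x - H.indicator (fun x => ∇ φ x) x‖ ≤ L + M * L + L := by
    intro k x
    have h1 : ‖H.indicator (fun x => ∇ φ x) x‖ ≤ L := by
      by_cases hx : x ∈ H
      · rw [indicator_of_mem hx]; exact hgrad x
      · rw [indicator_of_notMem hx, norm_zero]; exact L.2
    have h2 : ‖∇ (Φ k) x‖ ≤ L + M * L := by
      rw [hgradΦ]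
      refine (norm_add_le _ _).trans (add_le_add ?_ ?_)
      · rw [norm_smul, Real.norm_eq_abs, abs_of_nonneg (Rf.cut_nonneg _)]
        calc Rf.cut _ * ‖∇ φ x‖ ≤ 1 * L :=
              mul_le_mul (Rf.cut_le_one _) (hgrad x) (norm_nonneg _) zero_le_one
          _ = L := one_mul _
      · rw [norm_smul, hn, mul_one, Real.norm_eq_abs, abs_mul]
        calc |((k : ℝ) + 1) * deriv Rf.cut ((k + 1) * ⟪x, n⟫)| * |φ x|
            ≤ |((k : ℝ) + 1) * deriv Rf.cut ((k + 1) * ⟪x, n⟫)| * (L * |⟪x, n⟫|) := by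
              gcongr; exact hφ1 x
          _ = |((k : ℝ) + 1) * ⟪x, n⟫ * deriv Rf.cut ((k + 1) * ⟪x, n⟫)| * L := by
              rw [abs_mul, abs_mul, abs_mul]; ring
          _ ≤ M * L := by
              have := hM (((k : ℝ) + 1) * ⟪x, n⟫)
              gcongr
    exact (norm_sub_le _ _).trans (add_le_add h2 h1)
  have hzero : ∀ k x, x ∉ tsupport φ → ∇ (Φ k) x - H.indicator (fun x => ∇ φ x) x = 0 := by
    intro k x hx
    have h1 : φ x = 0 := image_eq_zero_of_notMem_tsupport hx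
    have h2 : ∇ φ x = 0 := by
      unfold gradient
      have : fderiv ℝ φ x = 0 := image_eq_zero_of_notMem_tsupport
        (fun h => hx (tsupport_fderiv_subset ℝ h))
      rw [this]; simp
    rw [hgradΦ, h1, h2]
    by_cases hx : x ∈ H
    · rw [indicator_of_mem hx, h2]; simp
    · rw [indicator_of_notMem hx]; simp
  have hev : ∀ x, x ∈ H → ∀ᶠ k : ℕ in atTop, 2 < ((k : ℝ) + 1) * ⟪x, n⟫ := by
    intro x hx
    have hx' : 0 < ⟪x, n⟫ := hx
    obtain ⟨K, hK⟩ := exists_nat_gt (2 / ⟪x, n⟫)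
    filter_upwards [eventually_ge_atTop K] with k hk
    have h1 : (K : ℝ) ≤ k := by exact_mod_cast hk
    rw [div_lt_iff₀ hx'] at hK
    nlinarith
  have hlim : ∀ x, Tendsto (fun k => ∇ (Φ k) x - H.indicator (fun x => ∇ φ x) x) atTop (𝓝 0) := by
    intro x
    by_cases hx : x ∈ H
    · refine tendsto_const_nhds.congr' ?_
      filter_upwards [hev x hx] with k hk
      rw [hgradΦ, indicator_of_mem hx, Rf.cut_one hk.le, Rf.deriv_cut_hi hk]
      simp
    · refine tendsto_const_nhds.congr' ?_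
      filter_upwards with k
      have h1 : ((k : ℝ) + 1) * ⟪x, n⟫ ≤ 0 := by
        simp only [hHdef, mem_ofPred_eq, not_lt] at hx
        have h3 : (0 : ℝ) < k + 1 := by positivity
        nlinarith
      rw [hgradΦ, indicator_of_notMem hx, Rf.cut_zero (by linarith), Rf.deriv_cut_lo (by linarith)]
      simp
  have hWφ : H.indicator (fun x => W x) =ᵐ[volume] H.indicator (fun x => ∇ φ x) := by
    filter_upwards [hW] with x hx
    by_cases hxH : x ∈ H
    · rw [indicator_of_mem hxH, indicator_of_mem hxH, hx]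
    · rw [indicator_of_notMem hxH, indicator_of_notMem hxH]
  have hkey : ∀ k, (fun x => (Wk k - V : LV N) x) =ᵐ[volume]
      fun x => ∇ (Φ k) x - H.indicator (fun x => ∇ φ x) x := by
    intro k
    filter_upwards [Lp.coeFn_sub (Wk k) V, hWk k, hV, hWφ] with x h1 h2 h3 h4
    rw [h1, Pi.sub_apply, h2, h3, h4]
  have hT1 : Tendsto (fun k => eLpNorm (fun x => ∇ (Φ k) x - H.indicator (fun x => ∇ φ x) x)
      (ENNReal.ofReal 2) volume) atTop (𝓝 0) := by
    refine Rf.tendsto_eLpNorm_dom two_pos hcs (fun k => ?_) (fun k => .of_forall (hbound k))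
      (fun k => .of_forall (hzero k)) (.of_forall hlim)
    exact (Lp.aestronglyMeasurable (Wk k - V)).congr (hkey k)
  have hT2 : Tendsto Wk atTop (𝓝 V) := by
    rw [tendsto_iff_norm_sub_tendsto_zero]
    have h1 : ∀ k, ‖Wk k - V‖ = (eLpNorm (fun x => ∇ (Φ k) x - H.indicator (fun x => ∇ φ x) x)
      (ENNReal.ofReal 2) volume).toReal := by
      intro k
      rw [Lp.norm_def, eLpNorm_congr_ae (hkey k)]
      norm_num
    simp only [h1]
    have := (ENNReal.tendsto_toReal (ENNReal.zero_ne_top)).comp hT1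
    simpa [Function.comp_def] using this
  have hfW : ∀ k, fn (Wk k) =ᵐ[volume] Φ k := fun k =>
    fn_test hN ⟨hΦs k, hΦcs k, subset_univ _⟩ (hWk k)
  have hDD : ∀ k, Wk k ∈ DD (Ω ∩ H) := fun k =>
    Submodule.le_topologicalClosure _ (Submodule.subset_span ⟨Φ k, hΦtest k, hWk k⟩)
  have hmφ : AEStronglyMeasurable (H.indicator φ) volume :=
    hφ.continuous.aestronglyMeasurable.indicator hHm
  have hT3 : Tendsto (fun k => eLpNorm (fun x => fn (Wk k) x - H.indicator φ x)
      (ENNReal.ofReal (ts N)) volume) atTop (𝓝 0) := by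
    refine Rf.tendsto_eLpNorm_dom (C := B + B) (by linarith [Rf.ts_ge_one hN]) hcs
      (fun k => (fn_meas _).sub hmφ) (fun k => ?_) (fun k => ?_) ?_
    · filter_upwards [hfW k] with x hx
      rw [hx]
      have hB0 : 0 ≤ B := (norm_nonneg _).trans (hB 0)
      refine (norm_sub_le _ _).trans (add_le_add ?_ ?_)
      · change ‖Rf.cut _ * φ x‖ ≤ B
        rw [norm_mul, Real.norm_eq_abs, abs_of_nonneg (Rf.cut_nonneg _)]
        calc Rf.cut _ * ‖φ x‖ ≤ 1 * B :=
              mul_le_mul (Rf.cut_le_one _) (hB x) (norm_nonneg _) zero_le_one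
          _ = B := one_mul _
      · by_cases hxH : x ∈ H
        · rw [indicator_of_mem hxH]; exact hB x
        · rw [indicator_of_notMem hxH, norm_zero]; exact hB0
    · filter_upwards [hfW k] with x hx hxt
      have h1 : φ x = 0 := image_eq_zero_of_notMem_tsupport hxt
      rw [hx]
      change Rf.cut _ * φ x - _ = 0
      rw [h1]
      by_cases hxH : x ∈ H
      · rw [indicator_of_mem hxH, h1]; simp
      · rw [indicator_of_notMem hxH]; simp
    · have hfW' : ∀ᵐ x, ∀ k, fn (Wk k) x = Φ k x := ae_all_iff.2 hfW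
      filter_upwards [hfW'] with x hx
      by_cases hxH : x ∈ H
      · refine tendsto_const_nhds.congr' ?_
        filter_upwards [hev x hxH] with k hk
        rw [hx k, indicator_of_mem hxH]
        change 0 = Rf.cut _ * φ x - φ x
        rw [Rf.cut_one hk.le]; ring
      · refine tendsto_const_nhds.congr' ?_
        filter_upwards with k
        have h1 : ((k : ℝ) + 1) * ⟪x, n⟫ ≤ 0 := by
          simp only [hHdef, mem_ofPred_eq, not_lt] at hxH
          have h3 : (0 : ℝ) < k + 1 := by positivity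
          nlinarith
        rw [hx k, indicator_of_notMem hxH]
        change 0 = Rf.cut _ * φ x - 0
        rw [Rf.cut_zero (by linarith)]; ring
  obtain ⟨h1, h2⟩ := Rf.fn_lim hN hDD hT2 hmφ hT3
  exact ⟨V, h1, hV, h2⟩


theorem Rf.fn_tendsto_eLp (hN : 3 ≤ N) {W : ℕ → LV N} {v : LV N} (hW : ∀ n, W n ∈ DD univ)
    (h : Tendsto W atTop (𝓝 v)) :
    Tendsto (fun n => eLpNorm (fun x => fn (W n) x - fn v x) (ENNReal.ofReal (ts N)) volume)
      atTop (𝓝 0) := by
  have hv : v ∈ DD (univ : Set (E N)) := by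
    have hc : IsClosed (DD (univ : Set (E N)) : Set (LV N)) :=
      Submodule.isClosed_topologicalClosure _
    exact hc.mem_of_tendsto h (Filter.Eventually.of_forall hW)
  obtain ⟨S, hS, hSob⟩ := exists_sob N hN
  have h3 : ∀ n, eLpNorm (fun x => fn (W n) x - fn v x) (ENNReal.ofReal (ts N)) volume ≤
      ENNReal.ofReal (S * ‖W n - v‖) := by
    intro n
    have h4 := hSob (W n - v) ((DD univ).sub_mem (hW n) hv)
    have h5 : eLpNorm (fun x => fn (W n) x - fn v x) (ENNReal.ofReal (ts N)) volume =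
        eLpNorm (fn (W n - v)) (ENNReal.ofReal (ts N)) volume :=
      eLpNorm_congr_ae (fn_sub hN (hW n) hv).symm
    rw [h5]
    have h6 := h4.1.2
    have h7 := h4.2
    unfold nq at h7
    rw [Measure.restrict_univ] at h6 h7
    rw [← ENNReal.ofReal_toReal h6.ne]
    exact ENNReal.ofReal_le_ofReal h7
  have h4 : Tendsto (fun n => ENNReal.ofReal (S * ‖W n - v‖)) atTop (𝓝 0) := by
    have : Tendsto (fun n => S * ‖W n - v‖) atTop (𝓝 (S * ‖v - v‖)) :=
      (h.sub tendsto_const_nhds).norm.const_mul S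
    rw [sub_self, norm_zero, mul_zero] at this
    have := (ENNReal.continuous_ofReal.tendsto 0).comp this
    rwa [ENNReal.ofReal_zero] at this
  exact tendsto_of_tendsto_of_tendsto_of_le_of_le tendsto_const_nhds h4 (fun _ => zero_le) h3

theorem Rf.grad_half_sub {φ ψ : E N → ℝ} (hφ : Differentiable ℝ φ) (hψ : Differentiable ℝ ψ)
    (c : ℝ) (x : E N) : ∇ (fun y => c * (φ y - ψ y)) x = c • (∇ φ x - ∇ ψ x) := by
  unfold gradient
  have h1 : fderiv ℝ (fun y => c * (φ y - ψ y)) x = c • (fderiv ℝ φ x - fderiv ℝ ψ x) :=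
    (((hφ x).hasFDerivAt.sub (hψ x).hasFDerivAt).const_mul c).fderiv
  rw [h1, map_smulₛₗ, map_sub]
  simp

theorem Rf.isTest_half_sub {Ω : Set (E N)} {φ ψ : E N → ℝ} (hφ : IsTest Ω φ) (hψ : IsTest Ω ψ)
    (c : ℝ) : IsTest Ω (fun y => c * (φ y - ψ y)) := by
  have h1 : tsupport (fun y => c * (φ y - ψ y)) ⊆ tsupport φ ∪ tsupport ψ := by
    refine (closure_mono ?_).trans (closure_union.subset)
    intro x hx
    by_contra h
    simp only [mem_union, Function.mem_support, ne_eq, not_or, not_not] at h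
    apply hx
    change c * (φ x - ψ x) = 0
    rw [h.1, h.2]; simp
  refine ⟨contDiff_const.mul (hφ.1.sub hψ.1), ?_, h1.trans (union_subset hφ.2.2 hψ.2.2)⟩
  exact HasCompactSupport.of_support_subset_isCompact (hφ.2.1.isCompact.union hψ.2.1.isCompact)
    ((subset_tsupport _).trans h1)

/-- restriction of odd functions to a half space -/
theorem odd_half (hN : 3 ≤ N) {Ω : Set (E N)} (hΩ : IsOpen Ω) {n : E N} (hn : ‖n‖ = 1)
    (hs : ∀ x, x ∈ Ω ↔ refl n x ∈ Ω) {w : LV N} (hw : w ∈ DD Ω)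
    (hodd : ∀ᵐ x, fn w (refl n x) = - fn w x) :
    ∃ w' ∈ DD (Ω ∩ {x | 0 < ⟪x, n⟫}),
      (w' : E N → E N) =ᵐ[volume] {x | 0 < ⟪x, n⟫}.indicator (fun x => w x) ∧
      fn w' =ᵐ[volume] {x | 0 < ⟪x, n⟫}.indicator (fn w) := by
  set H : Set (E N) := {x | 0 < ⟪x, n⟫} with hHdef
  have hHm : MeasurableSet H := Rf.meas_half n
  have hle : DD Ω ≤ DD univ := DD_mono (subset_univ _)
  have hR : ∀ x, Rf.reflI n x = refl n x := Rf.reflI_apply hn
  have hs' : ∀ x, x ∈ Ω ↔ Rf.reflI n x ∈ Ω := fun x => by rw [hR]; exact hs x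
  have hwneg : rot (Rf.reflI n) w = -w := by
    have h1 : rot (Rf.reflI n) w + w = 0 := by
      apply fn_inj hN ((DD univ).add_mem (rot_mem (Rf.reflI n) (fun x => by simp) (hle hw)) (hle hw))
      filter_upwards [fn_add hN (rot_mem (Rf.reflI n) (fun x => by simp) (hle hw)) (hle hw),
        fn_rot hN (Rf.reflI n) (hle hw), hodd] with x h1 h2 h3
      rw [h1, h2, hR, h3]; ring
    exact eq_neg_of_add_eq_zero_left h1
  obtain ⟨φ, W, hφ, hlim⟩ := DD_seq.1 hw
  have hdφ : ∀ k, Differentiable ℝ (φ k) := fun k => (hφ k).1.1.differentiable (by simp)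
  let φ' : ℕ → E N → ℝ := fun k x => (1 / 2) * (φ k x - φ k (Rf.reflI n x))
  let W' : ℕ → LV N := fun k => (1 / 2 : ℝ) • (W k - rot (Rf.reflI n) (W k))
  have hφ' : ∀ k, IsTest Ω (φ' k) := fun k =>
    Rf.isTest_half_sub (hφ k).1 (Rf.isTest_comp hs' (hφ k).1) _
  have hW' : ∀ k, IsGrad (W' k) (φ' k) := by
    intro k
    have h1 := Rf.isGrad_comp (Rf.reflI n) (hdφ k) (hφ k).2
    unfold IsGrad
    filter_upwards [Lp.coeFn_smul (1 / 2 : ℝ) (W k - rot (Rf.reflI n) (W k)),
      Lp.coeFn_sub (W k) (rot (Rf.reflI n) (W k)), (hφ k).2, h1] with x h2 h3 h4 h5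
    rw [h2, Pi.smul_apply, h3, Pi.sub_apply, h4, h5]
    exact (Rf.grad_half_sub (hdφ k) ((hdφ k).comp (Rf.reflI n).differentiable) _ x).symm
  have hlim' : Tendsto W' atTop (𝓝 w) := by
    have h1 : Tendsto W' atTop (𝓝 ((1 / 2 : ℝ) • (w - rot (Rf.reflI n) w))) :=
      (hlim.sub (((rot (Rf.reflI n)).continuous.tendsto w).comp hlim)).const_smul _
    rw [hwneg, sub_neg_eq_add, ← two_smul ℝ w, smul_smul] at h1
    simpa using h1
  have hodd' : ∀ k x, φ' k (refl n x) = -φ' k x := by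
    intro k x
    change (1 / 2) * (φ k (refl n x) - φ k (Rf.reflI n (refl n x))) =
      -((1 / 2) * (φ k x - φ k (Rf.reflI n x)))
    rw [hR, hR, Rf.refl_refl hn]
    ring
  choose U hU1 hU2 hU3 using fun k => Rf.half_test hN hn (hφ' k) (hW' k) (hodd' k)
  have hVm : MemLp (H.indicator (fun x => w x)) 2 volume := (Lp.memLp w).indicator hHm
  let V : LV N := hVm.toLp
  have hV : (V : E N → E N) =ᵐ[volume] H.indicator (fun x => w x) := hVm.coeFn_toLp
  have hUV : Tendsto U atTop (𝓝 V) := by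
    rw [tendsto_iff_norm_sub_tendsto_zero] at hlim' ⊢
    refine squeeze_zero (fun _ => norm_nonneg _) (fun k => ?_) hlim'
    rw [Lp.norm_def, Lp.norm_def]
    refine ENNReal.toReal_mono (Lp.eLpNorm_ne_top _) ?_
    refine eLpNorm_mono_ae ?_
    filter_upwards [Lp.coeFn_sub (U k) V, Lp.coeFn_sub (W' k) w, hU2 k, hV] with x h1 h2 h3 h4
    rw [h1, h2, Pi.sub_apply, Pi.sub_apply, h3, h4]
    by_cases hx : x ∈ H
    · rw [indicator_of_mem hx, indicator_of_mem hx]
    · rw [indicator_of_notMem hx, indicator_of_notMem hx, sub_zero, norm_zero]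
      exact norm_nonneg _
  have hfm : AEStronglyMeasurable (H.indicator (fn w)) volume := (fn_meas w).indicator hHm
  have hW'mem : ∀ k, W' k ∈ DD (univ : Set (E N)) := fun k =>
    hle (Submodule.le_topologicalClosure _ (Submodule.subset_span ⟨φ' k, hφ' k, hW' k⟩))
  have hfW : ∀ k, fn (W' k) =ᵐ[volume] φ' k := fun k =>
    fn_test hN ⟨(hφ' k).1, (hφ' k).2.1, subset_univ _⟩ (hW' k)
  have hT : Tendsto (fun k => eLpNorm (fun x => fn (U k) x - H.indicator (fn w) x)
      (ENNReal.ofReal (ts N)) volume) atTop (𝓝 0) := by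
    refine tendsto_of_tendsto_of_tendsto_of_le_of_le tendsto_const_nhds
      (Rf.fn_tendsto_eLp hN hW'mem hlim') (fun _ => zero_le) (fun k => ?_)
    refine eLpNorm_mono_ae ?_
    filter_upwards [hU3 k, hfW k] with x h1 h2
    rw [h1, h2]
    by_cases hx : x ∈ H
    · rw [indicator_of_mem hx, indicator_of_mem hx]
    · rw [indicator_of_notMem hx, indicator_of_notMem hx, sub_zero, norm_zero]
      exact norm_nonneg _
  obtain ⟨h1, h2⟩ := Rf.fn_lim hN hU1 hUV hfm hT
  exact ⟨V, h1, hV, h2⟩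

end Pool.Agent.helper13.BN
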