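import Pool.Agent.helper88.BN.Refl
import Pool.Agent.helper16.BN.Chain

set_option autoImplicit false
open MeasureTheory Filter Topology Set Metric
open scoped ContDiff Gradient RealInnerProductSpace ENNReal

noncomputable section
namespace Pool.Agent.helper13.BN
variable {N : ℕ}

theorem Rf.ann_isOpen (ρ : ℝ) : IsOpen (ann N ρ) :=
  (isOpen_lt continuous_const continuous_norm).inter (isOpen_lt continuous_norm continuous_const)

/-- one-sided estimate in the upper half of the annulus -/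
theorem Rf.half_est (hN : 3 ≤ N) {ρ : ℝ} {n : E N} (hn : ‖n‖ = 1)
    {z : LV N} {g : E N → ℝ} {K : ℝ} (hK0 : 0 ≤ K)
    (hgm : AEStronglyMeasurable g (volume.restrict (ann N ρ)))
    (hz : Weak (ann N ρ) z g) (hodd : ∀ᵐ x, fn z (refl n x) = - fn z x)
    (hK : ∀ᵐ x, x ∈ ann N ρ → |g x| ≤ 2 * K) :
    ∀ᵐ x, x ∈ ann N ρ → 0 < ⟪x, n⟫ → fn z x ≤ 2 * K * ⟪x, n⟫ := by
  set H : Set (E N) := {x | 0 < ⟪x, n⟫} with hHdef
  have hHm : MeasurableSet H := Rf.meas_half n
  have hHo : IsOpen H := isOpen_lt continuous_const (by fun_prop)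
  have hsym : ∀ x, x ∈ ann N ρ ↔ refl n x ∈ ann N ρ := fun x => by
    simp only [ann, mem_ofPred_eq, Rf.norm_refl hn]
  obtain ⟨z', hz', h1, h2⟩ := odd_half hN (Rf.ann_isOpen ρ) hn hsym hz.1 hodd
  have hweak : Weak (ann N ρ ∩ H) z' g := by
    refine ⟨hz', fun φ W hφ hW => ?_⟩
    have hφ2 : IsTest (ann N ρ) φ := ⟨hφ.1, hφ.2.1, hφ.2.2.trans inter_subset_left⟩
    rw [← hz.2 φ W hφ2 hW, L2.inner_def, L2.inner_def]
    refine integral_congr_ae ?_
    filter_upwards [h1, hW] with x h3 h4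
    rw [h3]
    by_cases hx : x ∈ H
    · rw [indicator_of_mem hx]
    · have h5 : x ∉ tsupport φ := fun h => hx (hφ.2.2 h).2
      have h6 : fderiv ℝ φ x = 0 := image_eq_zero_of_notMem_tsupport
        (fun h => h5 (tsupport_fderiv_subset ℝ h))
      have h7 : ∇ φ x = 0 := by unfold gradient; rw [h6]; simp
      rw [h4, h7, inner_zero_right, inner_zero_right]
  let ψ : E N → ℝ := fun x => 2 * K * (⟪x, n⟫ - ⟪x, n⟫ ^ 2 / 2)
  have hin : ContDiff ℝ 2 (fun x : E N => ⟪x, n⟫) := contDiff_id.inner ℝ contDiff_const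
  have hψ : ContDiff ℝ 2 ψ := contDiff_const.mul (hin.sub ((hin.pow 2).div_const 2))
  have hlapψ : ∀ x, lap ψ x = -(2 * K) := by
    intro x
    let q : ℝ → ℝ := fun s => 2 * K * (s - s ^ 2 / 2)
    have hq : ContDiff ℝ 2 q := by unfold q; fun_prop
    have hd : deriv q = fun s => 2 * K * (1 - s) := by
      ext s
      have : HasDerivAt q (2 * K * (1 - (2 * s) / 2)) s := by
        have h3 : HasDerivAt (fun s : ℝ => s ^ 2 / 2) ((2 * s) / 2) s := by
          simpa using (hasDerivAt_pow 2 s).div_const 2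
        exact ((hasDerivAt_id s).sub h3).const_mul (2 * K)
      rw [this.deriv]; ring
    have hd2 : ∀ s, deriv (deriv q) s = -(2 * K) := by
      intro s
      rw [hd]
      have : HasDerivAt (fun s : ℝ => 2 * K * (1 - s)) (2 * K * (0 - 1)) s :=
        ((hasDerivAt_const s (1 : ℝ)).sub (hasDerivAt_id s)).const_mul (2 * K)
      rw [this.deriv]; ring
    have h3 := lap_comp (u := fun y : E N => ⟪y, n⟫) (x := x) (g := q) hq.contDiffAt hin.contDiffAt
    rw [lap_inner, grad_inner, hn, hd2] at h3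
    have h4 : lap ψ x = lap (fun y : E N => q ⟪y, n⟫) x := rfl
    rw [h4, h3]; ring
  have hbd : Bornology.IsBounded (ann N ρ ∩ H) := by
    refine (Metric.isBounded_ball (x := (0 : E N)) (r := 1)).subset ?_
    intro x hx
    rw [mem_ball_zero_iff]; exact hx.1.2
  have hmem : Mq (td N) (ann N ρ ∩ H) g := by
    have hfin : IsFiniteMeasure (volume.restrict (ann N ρ ∩ H)) := by
      refine ⟨?_⟩
      rw [Measure.restrict_apply_univ]
      exact hbd.measure_lt_top
    have hms : MeasurableSet (ann N ρ ∩ H) := (Rf.ann_isOpen ρ).measurableSet.inter hHm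
    refine MemLp.of_bound (hgm.mono_measure (Measure.restrict_mono inter_subset_left le_rfl))
      (2 * K) ?_
    rw [ae_restrict_iff' hms]
    filter_upwards [hK] with x h3 h4
    exact h3 h4.1
  have hfr : ∀ x ∈ frontier (ann N ρ ∩ H), 0 ≤ ψ x := by
    intro x hx
    have h3 : x ∈ closure (ann N ρ ∩ H) := frontier_subset_closure hx
    have h4 : x ∈ {x : E N | 0 ≤ ⟪x, n⟫ ∧ ‖x‖ ≤ 1} := by
      have hc1 : IsClosed {x : E N | 0 ≤ ⟪x, n⟫} :=
        isClosed_le continuous_const (by fun_prop)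
      have hc2 : IsClosed {x : E N | ‖x‖ ≤ 1} := isClosed_le continuous_norm continuous_const
      refine closure_minimal ?_ (hc1.inter hc2) h3
      intro y hy
      exact ⟨show (0 : ℝ) ≤ ⟪y, n⟫ from le_of_lt hy.2, show ‖y‖ ≤ 1 from hy.1.2.le⟩
    obtain ⟨h5, h6⟩ := h4
    have h7 : ⟪x, n⟫ ≤ 1 := by
      have := real_inner_le_norm x n
      rw [hn, mul_one] at this
      linarith
    change 0 ≤ 2 * K * (⟪x, n⟫ - ⟪x, n⟫ ^ 2 / 2)
    have h8 : 0 ≤ ⟪x, n⟫ - ⟪x, n⟫ ^ 2 / 2 := by nlinarith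
    positivity
  have hcomp := comp hN ((Rf.ann_isOpen ρ).inter hHo) hbd isOpen_univ (subset_univ _)
    hψ.contDiffOn hfr hmem hweak ?_
  · filter_upwards [hcomp, h2] with x h3 h4 h5 h6
    have h7 := h3 ⟨h5, h6⟩
    have h6' : x ∈ H := h6
    rw [h4, indicator_of_mem h6'] at h7
    refine h7.trans ?_
    change 2 * K * (⟪x, n⟫ - ⟪x, n⟫ ^ 2 / 2) ≤ _
    have : 0 ≤ K * ⟪x, n⟫ ^ 2 := by positivity
    linarith
  · filter_upwards [hK] with x h3 h4
    rw [hlapψ, neg_neg]
    exact (le_abs_self _).trans (h3 h4.1)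

/-- THE REFLECTION ESTIMATE: if `|Δw| ≤ K` then `|w(x) - w(σx)| ≤ K |x - σx|` -/
theorem refl_est (hN : 3 ≤ N) {ρ : ℝ} (hρ : 0 < ρ) (hρ1 : ρ < 1) {n : E N} (hn : ‖n‖ = 1)
    {w : LV N} {g : E N → ℝ} {K : ℝ} (hgm : AEStronglyMeasurable g (volume.restrict (ann N ρ)))
    (hw : Weak (ann N ρ) w g) (hK : ∀ᵐ x, x ∈ ann N ρ → |g x| ≤ K) :
    ∀ᵐ x, x ∈ ann N ρ → |fn w x - fn w (refl n x)| ≤ K * ‖x - refl n x‖ := by
  by_cases hK0 : 0 ≤ K
  swap
  · filter_upwards [hK] with x h1 h2
    exact absurd ((abs_nonneg _).trans (h1 h2)) hK0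
  have hle : DD (ann N ρ) ≤ DD univ := DD_mono (subset_univ _)
  have hR : ∀ x, Rf.reflI n x = refl n x := Rf.reflI_apply hn
  have hRm : MeasurePreserving (Rf.reflI n : E N → E N) volume volume := (Rf.reflI n).measurePreserving
  have hsym : ∀ x, x ∈ ann N ρ ↔ Rf.reflI n x ∈ ann N ρ := fun x => by
    rw [hR]; simp only [ann, mem_ofPred_eq, Rf.norm_refl hn]
  have hms : MeasurableSet (ann N ρ) := (Rf.ann_isOpen ρ).measurableSet
  have hRres : MeasurePreserving (Rf.reflI n : E N → E N) (volume.restrict (ann N ρ))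
      (volume.restrict (ann N ρ)) := by
    have h1 := hRm.restrict_preimage hms
    have h2 : (Rf.reflI n : E N → E N) ⁻¹' (ann N ρ) = ann N ρ := by
      ext x; exact (hsym x).symm
    rwa [h2] at h1
  have hrot := weak_rot (Rf.reflI n) hsym hw
  -- `z = w - w ∘ σ`
  have key : ∀ s : ℝ, (s = 1 ∨ s = -1) →
      ∀ᵐ x, x ∈ ann N ρ → 0 < ⟪x, n⟫ → s * (fn w x - fn w (refl n x)) ≤ 2 * K * ⟪x, n⟫ := by
    intro s hs
    let z : LV N := s • (w - rot (Rf.reflI n) w)
    have hfz : fn z =ᵐ[volume] fun x => s * (fn w x - fn w (refl n x)) := by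
      have h1 : w - rot (Rf.reflI n) w ∈ DD (univ : Set (E N)) :=
        (DD univ).sub_mem (hle hw.1) (hle hrot.1)
      filter_upwards [fn_smul hN s h1, fn_sub hN (hle hw.1) (hle hrot.1),
        fn_rot hN (Rf.reflI n) (hle hw.1)] with x h2 h3 h4
      rw [h2, h3, h4, hR]
    have hodd : ∀ᵐ x, fn z (refl n x) = - fn z x := by
      have h1 := hRm.quasiMeasurePreserving.ae hfz
      filter_upwards [hfz, h1] with x h2 h3
      rw [hR] at h3
      rw [h2, h3, Rf.refl_refl hn]; ring
    have hz : Weak (ann N ρ) z (fun x => s * (g x - g (Rf.reflI n x))) := by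
      refine ⟨(DD _).smul_mem s ((DD _).sub_mem hw.1 hrot.1), fun φ W hφ hW => ?_⟩
      have h1 := hw.2 φ W hφ hW
      have h2 := hrot.2 φ W hφ hW
      change ⟪s • (w - rot (Rf.reflI n) w), W⟫ = _
      rw [real_inner_smul_left, inner_sub_left, h1, h2]
      have hφ0 : ∀ x, x ∉ ann N ρ → φ x = 0 := fun x hx =>
        image_eq_zero_of_notMem_tsupport (fun h => hx (hφ.2.2 h))
      obtain ⟨B, hB⟩ := hφ.2.1.exists_bound_of_continuous hφ.1.continuous
      have hint : ∀ {g : E N → ℝ}, AEStronglyMeasurable g (volume.restrict (ann N ρ)) →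
          (∀ᵐ x, x ∈ ann N ρ → |g x| ≤ K) → Integrable (fun x => g x * φ x) := by
        intro g hgm hgK
        have h3 : IntegrableOn (fun x => g x * φ x) (ann N ρ) := by
          have hfin : volume (ann N ρ) < ⊤ := by
            refine Bornology.IsBounded.measure_lt_top ?_
            refine (Metric.isBounded_ball (x := (0 : E N)) (r := 1)).subset ?_
            intro x hx
            rw [mem_ball_zero_iff]; exact hx.2
          have hfin2 : IsFiniteMeasure (volume.restrict (ann N ρ)) :=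
            ⟨by rw [Measure.restrict_apply_univ]; exact hfin⟩
          refine Integrable.of_bound
            (hgm.mul hφ.1.continuous.aestronglyMeasurable) (K * B) ?_
          rw [ae_restrict_iff' hms]
          filter_upwards [hgK] with x h4 h5
          rw [norm_mul]
          exact mul_le_mul (h4 h5) (hB x) (norm_nonneg _) hK0
        refine (integrableOn_iff_integrable_of_support_subset ?_).1 h3
        intro x hx
        by_contra h4
        apply hx
        change g x * φ x = 0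
        rw [hφ0 x h4, mul_zero]
      have hgm2 : AEStronglyMeasurable (fun x => g (Rf.reflI n x)) (volume.restrict (ann N ρ)) :=
        hgm.comp_measurePreserving hRres
      have hK2 : ∀ᵐ x, x ∈ ann N ρ → |g (Rf.reflI n x)| ≤ K := by
        filter_upwards [hRm.quasiMeasurePreserving.ae hK] with x h3 h4
        exact h3 ((hsym x).1 h4)
      rw [← integral_sub (hint hgm hK) (hint hgm2 hK2), ← integral_const_mul]
      congr 1
      ext x
      ring
    have hgm3 : AEStronglyMeasurable (fun x => s * (g x - g (Rf.reflI n x)))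
        (volume.restrict (ann N ρ)) :=
      (hgm.sub (hgm.comp_measurePreserving hRres)).const_mul s
    have hK3 : ∀ᵐ x, x ∈ ann N ρ → |s * (g x - g (Rf.reflI n x))| ≤ 2 * K := by
      filter_upwards [hK, hRm.quasiMeasurePreserving.ae hK] with x h3 h4 h5
      have h6 := h3 h5
      have h7 := h4 ((hsym x).1 h5)
      have h8 : |s| = 1 := by rcases hs with rfl | rfl <;> simp
      rw [abs_mul, h8, one_mul]
      calc |g x - g (Rf.reflI n x)| ≤ |g x| + |g (Rf.reflI n x)| := abs_sub _ _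
        _ ≤ 2 * K := by linarith
    have := Rf.half_est hN hn hK0 hgm3 hz hodd hK3
    filter_upwards [this, hfz] with x h1 h2 h3 h4
    rw [← h2]
    exact h1 h3 h4
  have k1 := key 1 (Or.inl rfl)
  have k2 := key (-1) (Or.inr rfl)
  have k3 := hRm.quasiMeasurePreserving.ae k1
  have k4 := hRm.quasiMeasurePreserving.ae k2
  filter_upwards [k1, k2, k3, k4] with x h1 h2 h3 h4 hx
  rw [Rf.norm_sub_refl hn]
  rcases lt_trichotomy ⟪x, n⟫ 0 with h | h | h
  · have h5 := h3 ((hsym x).1 hx) (by rw [hR, Rf.inner_refl hn]; linarith)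
    have h6 := h4 ((hsym x).1 hx) (by rw [hR, Rf.inner_refl hn]; linarith)
    rw [hR, Rf.refl_refl hn, Rf.inner_refl hn] at h5 h6
    rw [abs_of_neg h, abs_le]
    constructor <;> linarith
  · have h5 : refl n x = x := by unfold refl; rw [h]; simp
    rw [h5, h]; simp
  · have h5 := h1 hx h
    have h6 := h2 hx h
    rw [abs_of_pos h, abs_le]
    constructor <;> linarith

end Pool.Agent.helper13.BN
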