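import Pool.Agent.helper88.BN.ScaledA
import Pool.Agent.helper38.BN.Ener

set_option autoImplicit false
open MeasureTheory Filter Topology Set Metric
open scoped ContDiff Gradient RealInnerProductSpace ENNReal

/-! Module D8 of MP_94a57f_an, part B: `energy_scaled`. -/

noncomputable section
namespace Pool.Agent.helper13.BN
variable {N : ℕ}

/-- the constant in front of `η` depends only on `N` and the rectangle -/
theorem energy_scaled (hN : 3 ≤ N) (hN5 : N ≤ 5) {x1 x2 y1 y2 : ℝ} (hx1 : 0 < x1) (hy1 : 0 < y1) :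
    ∃ C : ℝ, 0 < C ∧ ∀ (η : ℝ) (F : Fam N η), 0 < η → ∀ κ > 0, ∀ᶠ n in atTop,
      ∀ x ∈ Icc x1 x2, ∀ y ∈ Icc y1 y2,
      |JJ F.ρ (F.lam n) (F.v n + bet N • WW F.e F.ρ (F.dep n x) (F.siz n y))
        - JJ F.ρ (F.lam n) (F.v n) - sN N / N - F.scl n * ered N (aN N) (bN N) x y|
        ≤ F.scl n * (C * η + κ) :=
  Sc.energy_scaled_of (fun h _ F => energy34 h F) (fun F => energy5 F) hN hN5 hx1 hy1

end Pool.Agent.helper13.BN
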