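import Pool.Agent.helper13.BN.Stmt
import Pool.Agent.helper68.BN.BubInt

set_option autoImplicit false
open MeasureTheory Filter Topology Set Metric
open scoped ContDiff Gradient RealInnerProductSpace ENNReal

noncomputable section
namespace Pool.Agent.helper13.BN
variable {N : ℕ}

/-- the statement of `energy34` (module D6) -/
def Sc.H34 (N : ℕ) : Prop := ∀ {η : ℝ} (F : Fam N η),
    ∃ C d₁ : ℝ, 0 < C ∧ 0 < d₁ ∧ F.ρ < 1 - d₁ ∧ ∀ (n : ℕ) (d μ : ℝ), 0 < d →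
      d < d₁ → 0 < μ → μ ≤ d ^ 2 →
      |JJ F.ρ (F.lam n) (F.v n + WW F.e F.ρ d μ) - JJ F.ρ (F.lam n) (F.v n) - sN N / N
        - (aN N * alN N / 2 * (μ ^ cc N) ^ 2 * (2 * d) ^ (2 - (N : ℝ))
          - aN N * μ ^ cc N * F.V n (cen F.e d))| ≤ C * Er N d μ

/-- the statement of `energy5` (module D6) -/
def Sc.H5 : Prop := ∀ {η : ℝ} (F : Fam 5 η),
    ∃ C d₁ : ℝ, 0 < C ∧ 0 < d₁ ∧ F.ρ < 1 - d₁ ∧ ∀ (n : ℕ) (d μ : ℝ), 0 < d →
      d < d₁ → 0 < μ → μ ≤ d ^ 2 →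
      |JJ F.ρ (F.lam n) (F.v n - WW F.e F.ρ d μ) - JJ F.ρ (F.lam n) (F.v n) - sN 5 / 5
        - (aN 5 * μ ^ cc 5 * F.V n (cen F.e d) - F.lam n / 2 * bN 5 * μ ^ 2)| ≤ C * Er 5 d μ

/-! ### Module D8 (energy in rescaled variables), part A: everything except the use of D6 -/

namespace Sc

theorem Dn_pos {η : ℝ} (F : Fam N η) (n : ℕ) : 0 < F.Dn n :=
  Real.sqrt_pos.2 (div_pos (F.eps_pos n) F.hgam)

theorem Dn_lim {η : ℝ} (F : Fam N η) : Tendsto F.Dn atTop (𝓝 0) := by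
  have h : Tendsto (fun n => Real.sqrt (F.eps n / F.gam)) atTop (𝓝 (Real.sqrt (0 / F.gam))) :=
    (Real.continuous_sqrt.tendsto _).comp (F.eps_lim.div_const _)
  rw [zero_div, Real.sqrt_zero] at h
  exact h

theorem eps_eq {η : ℝ} (F : Fam N η) (n : ℕ) : F.eps n = F.gam * F.Dn n ^ 2 := by
  unfold Fam.Dn
  rw [Real.sq_sqrt (div_pos (F.eps_pos n) F.hgam).le]
  field_simp [F.hgam.ne']

theorem cc3 : cc 3 = 1 / 2 := by norm_num [cc]
theorem cc4 : cc 4 = 1 := by norm_num [cc]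
theorem cc5 : cc 5 = 3 / 2 := by norm_num [cc]

/-- the base of the size -/
def AA {η : ℝ} (F : Fam N η) (n : ℕ) : ℝ :=
  if N = 5 then (F.gam / F.lamb) ^ 3 * F.Dn n ^ 9 else F.gam * F.Dn n ^ (N + 1)

theorem AA_pos {η : ℝ} (F : Fam N η) (n : ℕ) : 0 < AA F n := by
  have h1 := Dn_pos F n
  have h2 := F.hgam
  have h3 := F.hlamb
  unfold AA
  split_ifs <;> positivity

theorem siz_eq {η : ℝ} (F : Fam N η) (n : ℕ) (y : ℝ) : F.siz n y = (AA F n * y) ^ (1 / cc N) := rfl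

theorem siz_cc (hN : 3 ≤ N) {η : ℝ} (F : Fam N η) (n : ℕ) {y : ℝ} (hy : 0 < y) :
    F.siz n y ^ cc N = AA F n * y := by
  have h1 := AA_pos F n
  have h3 : (3 : ℝ) ≤ N := by exact_mod_cast hN
  have hc : cc N ≠ 0 := by unfold cc; intro h; linarith
  rw [siz_eq, ← Real.rpow_mul (by positivity), one_div, inv_mul_cancel₀ hc, Real.rpow_one]

theorem siz_pos {η : ℝ} (F : Fam N η) (n : ℕ) {y : ℝ} (hy : 0 < y) : 0 < F.siz n y := by
  rw [siz_eq]
  exact Real.rpow_pos_of_pos (mul_pos (AA_pos F n) hy) _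

theorem siz3 {η : ℝ} (F : Fam 3 η) (n : ℕ) (y : ℝ) :
    F.siz n y = (F.gam * F.Dn n ^ 4 * y) ^ 2 := by
  rw [siz_eq, cc3, AA, if_neg (by norm_num)]
  have : (1 : ℝ) / (1 / 2) = ((2 : ℕ) : ℝ) := by norm_num
  rw [this, Real.rpow_natCast]

theorem siz4 {η : ℝ} (F : Fam 4 η) (n : ℕ) (y : ℝ) :
    F.siz n y = F.gam * F.Dn n ^ 5 * y := by
  rw [siz_eq, cc4, AA, if_neg (by norm_num)]
  norm_num

theorem siz5 {η : ℝ} (F : Fam 5 η) (n : ℕ) {y : ℝ} (hy : 0 < y) :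
    F.siz n y = (F.gam / F.lamb * F.Dn n ^ 3) ^ 2 * y ^ ((2 : ℝ) / 3) := by
  rw [siz_eq, cc5, AA, if_pos rfl]
  have h1 := Dn_pos F n
  have h2 := F.hgam
  have h3 := F.hlamb
  have h4 : (F.gam / F.lamb) ^ 3 * F.Dn n ^ 9 * y = (F.gam / F.lamb * F.Dn n ^ 3) ^ 3 * y := by
    ring
  have h5 : (1 : ℝ) / (3 / 2) = 2 / 3 := by norm_num
  have h6 : 0 ≤ F.gam / F.lamb * F.Dn n ^ 3 := by positivity
  rw [h4, h5, Real.mul_rpow (by positivity) hy.le, ← Real.rpow_natCast, ← Real.rpow_mul h6]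
  norm_num

/-- eventually small -/
theorem ev_small {f : ℕ → ℝ} (h : Tendsto f atTop (𝓝 0)) {κ : ℝ} (hκ : 0 < κ) :
    ∀ᶠ n in atTop, f n < κ := h.eventually (gt_mem_nhds hκ)

theorem siz_bound (hN : 3 ≤ N) (hN5 : N ≤ 5) {η : ℝ} (F : Fam N η) (y2 : ℝ) :
    ∃ r : ℕ → ℝ, Tendsto r atTop (𝓝 0) ∧ ∀ n, ∀ y, 0 < y → y ≤ y2 →
      F.siz n y ≤ F.Dn n ^ 2 * r n := by
  have h : N = 3 ∨ N = 4 ∨ N = 5 := by omega
  have hD := Dn_lim F
  rcases h with rfl | rfl | rfl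
  · refine ⟨fun n => F.Dn n ^ 6 * (F.gam ^ 2 * y2 ^ 2), ?_, ?_⟩
    · have := (hD.pow 6).mul_const (F.gam ^ 2 * y2 ^ 2)
      simpa using this
    · intro n y hy hy2
      rw [siz3]
      have h1 : y ^ 2 ≤ y2 ^ 2 := by gcongr
      calc (F.gam * F.Dn n ^ 4 * y) ^ 2 = F.Dn n ^ 8 * F.gam ^ 2 * y ^ 2 := by ring
        _ ≤ F.Dn n ^ 8 * F.gam ^ 2 * y2 ^ 2 := by gcongr
        _ = _ := by ring
  · refine ⟨fun n => F.Dn n ^ 3 * (F.gam * y2), ?_, ?_⟩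
    · have := (hD.pow 3).mul_const (F.gam * y2)
      simpa using this
    · intro n y hy hy2
      rw [siz4]
      have h1 := F.hgam
      have h2 := Dn_pos F n
      calc F.gam * F.Dn n ^ 5 * y ≤ F.gam * F.Dn n ^ 5 * y2 := by gcongr
        _ = _ := by ring
  · refine ⟨fun n => F.Dn n ^ 4 * ((F.gam / F.lamb) ^ 2 * y2 ^ ((2 : ℝ) / 3)), ?_, ?_⟩
    · have := (hD.pow 4).mul_const ((F.gam / F.lamb) ^ 2 * y2 ^ ((2 : ℝ) / 3))
      simpa using this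
    · intro n y hy hy2
      rw [siz5 F n hy]
      have h1 : y ^ ((2 : ℝ) / 3) ≤ y2 ^ ((2 : ℝ) / 3) :=
        Real.rpow_le_rpow hy.le hy2 (by norm_num)
      calc (F.gam / F.lamb * F.Dn n ^ 3) ^ 2 * y ^ ((2 : ℝ) / 3)
          ≤ (F.gam / F.lamb * F.Dn n ^ 3) ^ 2 * y2 ^ ((2 : ℝ) / 3) := by gcongr
        _ = _ := by ring

end Sc

theorem siz_dep (hN : 3 ≤ N) (hN5 : N ≤ 5) {η : ℝ} (F : Fam N η) {x1 x2 y1 y2 : ℝ} (hx1 : 0 < x1)
    (hy1 : 0 < y1) : (∀ κ > 0, ∀ᶠ n in atTop, ∀ x ∈ Icc x1 x2, ∀ y ∈ Icc y1 y2,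
      0 < F.dep n x ∧ F.dep n x < κ ∧ 0 < F.siz n y ∧ F.siz n y < κ ∧
        F.siz n y ≤ F.dep n x ^ 2) := by
  intro κ hκ
  obtain ⟨r, hr, hb⟩ := Sc.siz_bound hN hN5 F y2
  have hD := Sc.Dn_lim F
  have e1 : ∀ᶠ n in atTop, F.Dn n * |x2| < κ := by
    have := hD.mul_const |x2|
    rw [zero_mul] at this
    exact Sc.ev_small this hκ
  have e2 : ∀ᶠ n in atTop, F.Dn n ^ 2 * r n < κ := by
    have := (hD.pow 2).mul hr
    rw [mul_zero] at this
    exact Sc.ev_small this hκ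
  have e3 : ∀ᶠ n in atTop, r n < x1 ^ 2 := Sc.ev_small hr (by positivity)
  filter_upwards [e1, e2, e3] with n h1 h2 h3 x hx y hy
  have hD0 := Sc.Dn_pos F n
  have hx0 : 0 < x := hx1.trans_le hx.1
  have hy0 : 0 < y := hy1.trans_le hy.1
  have h4 := hb n y hy0 hy.2
  refine ⟨mul_pos hD0 hx0, ?_, Sc.siz_pos F n hy0, h4.trans_lt h2, ?_⟩
  · refine lt_of_le_of_lt ?_ h1
    unfold Fam.dep
    have : x ≤ |x2| := hx.2.trans (le_abs_self _)
    gcongr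
  · refine h4.trans ?_
    unfold Fam.dep
    rw [mul_pow]
    have : x1 ^ 2 ≤ x ^ 2 := by gcongr; exact hx.1
    gcongr
    linarith

/-- the scale of the energy: `γ² D^{N+4}` resp. `γ⁴ λ̄^{-3} D^{12}` -/
def Fam.scl {η : ℝ} (F : Fam N η) (n : ℕ) : ℝ :=
  if N = 5 then F.gam ^ 4 / F.lamb ^ 3 * F.Dn n ^ 12 else F.gam ^ 2 * F.Dn n ^ (N + 4)

namespace Sc

theorem scl_pos {η : ℝ} (F : Fam N η) (n : ℕ) : 0 < F.scl n := by
  have h1 := Dn_pos F n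
  have h2 := F.hgam
  have h3 := F.hlamb
  unfold Fam.scl
  split_ifs <;> positivity

/-- `Er` is small compared with the scale -/
theorem Er_bound (hN : 3 ≤ N) (hN5 : N ≤ 5) {η : ℝ} (F : Fam N η) {x1 : ℝ} (hx1 : 0 < x1)
    (y2 : ℝ) : ∃ r : ℕ → ℝ, Tendsto r atTop (𝓝 0) ∧ ∀ n, ∀ x y, x1 ≤ x → 0 < y → y ≤ y2 →
      Er N (F.dep n x) (F.siz n y) ≤ F.scl n * r n := by
  have h : N = 3 ∨ N = 4 ∨ N = 5 := by omega
  have hD := Dn_lim F
  have hg := F.hgam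
  have hl := F.hlamb
  rcases h with rfl | rfl | rfl
  · refine ⟨fun n => F.Dn n * y2 ^ 2, ?_, ?_⟩
    · have := hD.mul_const (y2 ^ 2)
      simpa using this
    · intro n x y hx hy hy2
      have hDp := Dn_pos F n
      unfold Er Fam.scl
      rw [if_pos rfl, if_neg (by norm_num), siz3]
      calc (F.gam * F.Dn n ^ 4 * y) ^ 2 = F.gam ^ 2 * F.Dn n ^ (3 + 4) * (F.Dn n * y ^ 2) := by ring
        _ ≤ F.gam ^ 2 * F.Dn n ^ (3 + 4) * (F.Dn n * y2 ^ 2) := by gcongr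
  · refine ⟨fun n => F.Dn n * (y2 ^ 2 / x1) +
      (F.gam * y2) ^ ((8 : ℝ) / 5) / F.gam ^ 2 * (F.gam * F.Dn n ^ 5 * y2) ^ ((1 : ℝ) / 15), ?_, ?_⟩
    · have h1 := hD.mul_const (y2 ^ 2 / x1)
      have h2 : Tendsto (fun n => (F.gam * F.Dn n ^ 5 * y2) ^ ((1 : ℝ) / 15)) atTop (𝓝 0) := by
        have h3 : Tendsto (fun n => F.gam * F.Dn n ^ 5 * y2) atTop (𝓝 0) := by
          have := ((hD.pow 5).const_mul F.gam).mul_const y2
          simpa using this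
        have h4 := h3.rpow_const (p := (1 : ℝ) / 15) (Or.inr (by norm_num))
        rwa [Real.zero_rpow (by norm_num)] at h4
      have h5 := h1.add (h2.const_mul ((F.gam * y2) ^ ((8 : ℝ) / 5) / F.gam ^ 2))
      simpa using h5
    · intro n x y hx hy hy2
      have hDp := Dn_pos F n
      have hx0 : 0 < x := hx1.trans_le hx
      have hy20 : 0 < y2 := hy.trans_le hy2
      unfold Er Fam.scl Fam.dep
      rw [if_neg (by norm_num), if_pos rfl, if_neg (by norm_num), siz4, mul_add]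
      refine add_le_add ?_ ?_
      · have h1 : (F.gam * F.Dn n ^ 5 * y) ^ 2 / (F.Dn n * x) =
            F.gam ^ 2 * F.Dn n ^ (4 + 4) * (F.Dn n * (y ^ 2 / x)) := by
          field_simp
        rw [h1]
        have h2 : y ^ 2 / x ≤ y2 ^ 2 / x1 := by gcongr
        gcongr
      · have h1 : (F.gam * F.Dn n ^ 5 * y) ^ ((5 : ℝ) / 3) ≤
            (F.gam * F.Dn n ^ 5 * y2) ^ ((5 : ℝ) / 3) :=
          Real.rpow_le_rpow (by positivity) (by gcongr) (by norm_num)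
        refine h1.trans (le_of_eq ?_)
        have h2 : ((5 : ℝ) / 3) = 8 / 5 + 1 / 15 := by norm_num
        have h3 : (F.gam * F.Dn n ^ 5 * y2) = F.Dn n ^ 5 * (F.gam * y2) := by ring
        have h4 : (F.gam * F.Dn n ^ 5 * y2) ^ ((8 : ℝ) / 5) =
            F.Dn n ^ 8 * (F.gam * y2) ^ ((8 : ℝ) / 5) := by
          rw [h3, Real.mul_rpow (by positivity) (by positivity), ← Real.rpow_natCast (F.Dn n) 5,
            ← Real.rpow_mul hDp.le]
          norm_num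
        rw [h2, Real.rpow_add (by positivity), h4]
        field_simp
  · refine ⟨fun n => (((F.gam / F.lamb * F.Dn n ^ 3) ^ 2 * y2 ^ ((2 : ℝ) / 3)) ^ ((1 : ℝ) / 6) *
      (y2 ^ ((4 : ℝ) / 3) / F.lamb) + (F.gam / F.lamb * F.Dn n ^ 3) *
        (F.gam / F.lamb ^ 2 * y2 ^ 2 / x1 ^ 3)), ?_, ?_⟩
    · have h0 : Tendsto (fun n => F.gam / F.lamb * F.Dn n ^ 3) atTop (𝓝 0) := by
        have := (hD.pow 3).const_mul (F.gam / F.lamb)
        simpa using this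
      have h1 : Tendsto (fun n => ((F.gam / F.lamb * F.Dn n ^ 3) ^ 2 * y2 ^ ((2 : ℝ) / 3)) ^
          ((1 : ℝ) / 6)) atTop (𝓝 0) := by
        have h2 : Tendsto (fun n => (F.gam / F.lamb * F.Dn n ^ 3) ^ 2 * y2 ^ ((2 : ℝ) / 3))
            atTop (𝓝 0) := by
          have := (h0.pow 2).mul_const (y2 ^ ((2 : ℝ) / 3))
          simpa using this
        have h4 := h2.rpow_const (p := (1 : ℝ) / 6) (Or.inr (by norm_num))
        rwa [Real.zero_rpow (by norm_num)] at h4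
      have h5 := (h1.mul_const (y2 ^ ((4 : ℝ) / 3) / F.lamb)).add
        (h0.mul_const (F.gam / F.lamb ^ 2 * y2 ^ 2 / x1 ^ 3))
      simpa using h5
    · intro n x y hx hy hy2
      have hDp := Dn_pos F n
      have hx0 : 0 < x := hx1.trans_le hx
      have hy20 : 0 < y2 := hy.trans_le hy2
      unfold Er Fam.scl Fam.dep
      rw [if_neg (by norm_num), if_neg (by norm_num), if_pos rfl, siz5 F n hy, mul_add]
      set t := F.gam / F.lamb * F.Dn n ^ 3 with ht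
      have ht0 : 0 < t := by positivity
      have hs : F.gam ^ 4 / F.lamb ^ 3 * F.Dn n ^ 12 = F.lamb * t ^ 4 := by
        rw [ht]; field_simp
      rw [hs]
      refine add_le_add ?_ ?_
      · have h1 : (t ^ 2 * y ^ ((2 : ℝ) / 3)) ^ ((13 : ℝ) / 6) ≤
            (t ^ 2 * y2 ^ ((2 : ℝ) / 3)) ^ ((13 : ℝ) / 6) := by
          refine Real.rpow_le_rpow (by positivity) ?_ (by norm_num)
          have : y ^ ((2 : ℝ) / 3) ≤ y2 ^ ((2 : ℝ) / 3) :=
            Real.rpow_le_rpow hy.le hy2 (by norm_num)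
          gcongr
        refine h1.trans (le_of_eq ?_)
        have h2 : ((13 : ℝ) / 6) = ((2 : ℕ) : ℝ) + 1 / 6 := by norm_num
        have h3 : (y2 ^ ((2 : ℝ) / 3)) ^ 2 = y2 ^ ((4 : ℝ) / 3) := by
          rw [← Real.rpow_natCast, ← Real.rpow_mul hy20.le]; norm_num
        rw [h2, Real.rpow_add (by positivity), Real.rpow_natCast, mul_pow, h3]
        field_simp
      · have h1 : (t ^ 2 * y ^ ((2 : ℝ) / 3)) ^ 3 / (F.Dn n * x) ^ 3 =
            F.lamb * t ^ 4 * (t * (F.gam / F.lamb ^ 2 * y ^ 2 / x ^ 3)) := by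
          have h2 : (y ^ ((2 : ℝ) / 3)) ^ 3 = y ^ 2 := by
            rw [← Real.rpow_natCast, ← Real.rpow_mul hy.le]; norm_num
          rw [mul_pow, h2, ht]
          field_simp
        rw [h1]
        have h2 : F.gam / F.lamb ^ 2 * y ^ 2 / x ^ 3 ≤ F.gam / F.lamb ^ 2 * y2 ^ 2 / x1 ^ 3 := by
          gcongr
        gcongr

theorem scl_eq {η : ℝ} (F : Fam N η) (n : ℕ) : F.scl n = AA F n * (F.gam * F.Dn n ^ 3) := by
  have h2 := F.hgam
  have h3 := F.hlamb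
  unfold Fam.scl AA
  split_ifs
  · field_simp
  · ring

theorem V_bd {η : ℝ} (F : Fam N η) (n : ℕ) {x : ℝ} (hx : 0 < x) (hd : F.dep n x < F.d₀) :
    |F.V n (cen F.e (F.dep n x)) - F.gam * F.Dn n ^ 3 * (x - x ^ 3)| ≤
      F.gam * F.Dn n ^ 3 * (η * x ^ 3 + F.K * F.Dn n * x ^ 2) := by
  have h1 := F.prof n (F.dep n x) ⟨mul_pos (Dn_pos F n) hx, hd⟩
  rw [eps_eq] at h1
  unfold cen
  have e1 : F.gam * F.Dn n ^ 2 * F.dep n x - F.gam * F.dep n x ^ 3 =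
      F.gam * F.Dn n ^ 3 * (x - x ^ 3) := by unfold Fam.dep; ring
  have e2 : η * F.gam * F.dep n x ^ 3 + F.K * (F.gam * F.Dn n ^ 2) * F.dep n x ^ 2 =
      F.gam * F.Dn n ^ 3 * (η * x ^ 3 + F.K * F.Dn n * x ^ 2) := by unfold Fam.dep; ring
  rwa [e1, e2] at h1

theorem V_term (hN : 3 ≤ N) {η : ℝ} (hη : 0 ≤ η) (F : Fam N η) (n : ℕ) {x x2 y y2 : ℝ} (hx : 0 < x)
    (hx2 : x ≤ x2) (hy : 0 < y) (hy2 : y ≤ y2) (hd : F.dep n x < F.d₀) :
    |aN N * F.siz n y ^ cc N * F.V n (cen F.e (F.dep n x)) -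
      F.scl n * (aN N * y * (x - x ^ 3))| ≤
      F.scl n * ((aN N * y2 * x2 ^ 3) * η + aN N * y2 * x2 ^ 2 * F.K * F.Dn n) := by
  have h1 := V_bd F n hx hd
  have ha := aN_pos hN
  have hA := AA_pos F n
  have hD := Dn_pos F n
  have hg := F.hgam
  have hK := F.hK
  have hy20 : 0 < y2 := hy.trans_le hy2
  have hx20 : 0 < x2 := hx.trans_le hx2
  rw [siz_cc hN F n hy, scl_eq]
  have e1 : aN N * (AA F n * y) * F.V n (cen F.e (F.dep n x)) -
      AA F n * (F.gam * F.Dn n ^ 3) * (aN N * y * (x - x ^ 3)) =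
      (aN N * (AA F n * y)) * (F.V n (cen F.e (F.dep n x)) - F.gam * F.Dn n ^ 3 * (x - x ^ 3)) := by
    ring
  rw [e1, abs_mul, abs_of_pos (by positivity)]
  calc aN N * (AA F n * y) * |F.V n (cen F.e (F.dep n x)) - F.gam * F.Dn n ^ 3 * (x - x ^ 3)|
      ≤ aN N * (AA F n * y) * (F.gam * F.Dn n ^ 3 * (η * x ^ 3 + F.K * F.Dn n * x ^ 2)) := by
        gcongr
    _ ≤ aN N * (AA F n * y2) * (F.gam * F.Dn n ^ 3 * (η * x2 ^ 3 + F.K * F.Dn n * x2 ^ 2)) := by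
        gcongr
    _ = _ := by ring

theorem quad34 (h34 : N = 3 ∨ N = 4) {η : ℝ} (F : Fam N η) (n : ℕ) {x y : ℝ} (hx : 0 < x)
    (hy : 0 < y) : (F.siz n y ^ cc N) ^ 2 * (2 * F.dep n x) ^ (2 - (N : ℝ)) =
      F.scl n * ((2 * x) ^ (2 - (N : ℝ)) * y ^ 2) := by
  have hN : 3 ≤ N := by omega
  have hN5 : N ≠ 5 := by omega
  have hD := Dn_pos F n
  rw [siz_cc hN F n hy]
  unfold AA Fam.scl Fam.dep
  rw [if_neg hN5, if_neg hN5]
  have e1 : 2 * (F.Dn n * x) = F.Dn n * (2 * x) := by ring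
  rw [e1, Real.mul_rpow hD.le (by positivity)]
  have hpow : (F.Dn n ^ (N + 1)) ^ 2 * F.Dn n ^ (2 - (N : ℝ)) = F.Dn n ^ (N + 4) := by
    rw [← pow_mul, ← Real.rpow_natCast (F.Dn n) ((N + 1) * 2), ← Real.rpow_natCast (F.Dn n) (N + 4),
      ← Real.rpow_add hD]
    congr 1
    push_cast
    ring
  rw [← hpow]
  ring

theorem quad5 {η : ℝ} (F : Fam 5 η) (n : ℕ) {y : ℝ} (hy : 0 < y) :
    F.siz n y ^ 2 = F.scl n / F.lamb * y ^ ((4 : ℝ) / 3) := by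
  have h3 := F.hlamb
  rw [siz5 F n hy, mul_pow]
  have e1 : (y ^ ((2 : ℝ) / 3)) ^ 2 = y ^ ((4 : ℝ) / 3) := by
    rw [← Real.rpow_natCast, ← Real.rpow_mul hy.le]; norm_num
  rw [e1]
  unfold Fam.scl
  rw [if_pos rfl]
  field_simp

end Sc

/-- the constant in front of `η` depends only on `N` and the rectangle -/
theorem Sc.energy_scaled_of (H34 : N = 3 ∨ N = 4 → Sc.H34 N) (H5 : Sc.H5) (hN : 3 ≤ N)
    (hN5 : N ≤ 5) {x1 x2 y1 y2 : ℝ} (hx1 : 0 < x1) (hy1 : 0 < y1) :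
    ∃ C : ℝ, 0 < C ∧ ∀ (η : ℝ) (F : Fam N η), 0 < η → ∀ κ > 0, ∀ᶠ n in atTop,
      ∀ x ∈ Icc x1 x2, ∀ y ∈ Icc y1 y2,
      |JJ F.ρ (F.lam n) (F.v n + bet N • WW F.e F.ρ (F.dep n x) (F.siz n y))
        - JJ F.ρ (F.lam n) (F.v n) - sN N / N - F.scl n * ered N (aN N) (bN N) x y|
        ≤ F.scl n * (C * η + κ) := by
  have ha := aN_pos hN
  refine ⟨|aN N * y2 * x2 ^ 3| + 1, by positivity, fun η F hη κ hκ => ?_⟩
  have hD := Sc.Dn_lim F
  obtain ⟨r, hr, hEr⟩ := Sc.Er_bound hN hN5 F hx1 y2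
  have e1 : ∀ᶠ n in atTop, aN N * y2 * x2 ^ 2 * F.K * F.Dn n < κ / 3 := by
    have := hD.const_mul (aN N * y2 * x2 ^ 2 * F.K)
    rw [mul_zero] at this
    exact Sc.ev_small this (by positivity)
  have hCη : (aN N * y2 * x2 ^ 3) * η ≤ (|aN N * y2 * x2 ^ 3| + 1) * η := by
    have := le_abs_self (aN N * y2 * x2 ^ 3)
    gcongr
    linarith
  by_cases h5 : N = 5
  · subst h5
    obtain ⟨C₀, d₁, hC₀, hd₁, -, hen⟩ := H5 F
    have e2 := siz_dep hN hN5 F (x2 := x2) (y2 := y2) hx1 hy1 (min d₁ F.d₀) (lt_min hd₁ F.hd₀)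
    have e3 : ∀ᶠ n in atTop, C₀ * r n < κ / 3 := by
      have := hr.const_mul C₀
      rw [mul_zero] at this
      exact Sc.ev_small this (by positivity)
    have e4 : ∀ᶠ n in atTop, bN 5 / 2 * y2 ^ ((4 : ℝ) / 3) * |F.lam n / F.lamb - 1| < κ / 3 := by
      have h1 : Tendsto (fun n => |F.lam n / F.lamb - 1|) atTop (𝓝 0) := by
        have h2 := (F.lam_lim.div_const F.lamb).sub_const 1
        rw [div_self F.hlamb.ne', sub_self] at h2
        simpa using h2.abs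
      have := h1.const_mul (bN 5 / 2 * y2 ^ ((4 : ℝ) / 3))
      rw [mul_zero] at this
      exact Sc.ev_small this (by positivity)
    filter_upwards [e1, e2, e3, e4] with n h1 h2 h3 h4 x hx y hy
    obtain ⟨g1, g2, g3, g4, g5⟩ := h2 x hx y hy
    have hx0 : 0 < x := hx1.trans_le hx.1
    have hy0 : 0 < y := hy1.trans_le hy.1
    have hscl := Sc.scl_pos F n
    have k1 := hen n (F.dep n x) (F.siz n y) g1 (g2.trans_le (min_le_left _ _)) g3 g5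
    have k2 := hEr n x y hx.1 hy0 hy.2
    have k3 := Sc.V_term hN hη.le F n hx0 hx.2 hy0 hy.2 (g2.trans_le (min_le_right _ _))
    have hbet : F.v n + bet 5 • WW F.e F.ρ (F.dep n x) (F.siz n y) =
        F.v n - WW F.e F.ρ (F.dep n x) (F.siz n y) := by
      unfold bet
      rw [if_pos rfl, neg_smul, one_smul, sub_eq_add_neg]
    rw [hbet]
    have hered : ered 5 (aN 5) (bN 5) x y =
        aN 5 * y * (x - x ^ 3) - bN 5 / 2 * y ^ ((4 : ℝ) / 3) := by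
      unfold ered
      rw [if_pos rfl]
    rw [hered]
    have hb := bN_pos (N := 5) le_rfl
    have k4 : |F.lam n / 2 * bN 5 * F.siz n y ^ 2 - F.scl n * (bN 5 / 2 * y ^ ((4 : ℝ) / 3))| ≤
        F.scl n * (κ / 3) := by
      rw [Sc.quad5 F n hy0]
      have l1 := F.hlamb
      have e5 : F.lam n / 2 * bN 5 * (F.scl n / F.lamb * y ^ ((4 : ℝ) / 3)) -
          F.scl n * (bN 5 / 2 * y ^ ((4 : ℝ) / 3)) =
          F.scl n * (bN 5 / 2 * y ^ ((4 : ℝ) / 3) * (F.lam n / F.lamb - 1)) := by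
        field_simp
      rw [e5, abs_mul, abs_of_pos hscl]
      refine mul_le_mul_of_nonneg_left ?_ hscl.le
      rw [abs_mul, abs_of_pos (by positivity)]
      refine le_trans ?_ h4.le
      have : y ^ ((4 : ℝ) / 3) ≤ y2 ^ ((4 : ℝ) / 3) :=
        Real.rpow_le_rpow hy0.le hy.2 (by norm_num)
      gcongr
    have k5 : C₀ * Er 5 (F.dep n x) (F.siz n y) ≤ F.scl n * (κ / 3) := by
      calc C₀ * Er 5 (F.dep n x) (F.siz n y) ≤ C₀ * (F.scl n * r n) := by gcongr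
        _ = F.scl n * (C₀ * r n) := by ring
        _ ≤ _ := by gcongr
    have k6 : F.scl n * ((aN 5 * y2 * x2 ^ 3) * η + aN 5 * y2 * x2 ^ 2 * F.K * F.Dn n) ≤
        F.scl n * ((|aN 5 * y2 * x2 ^ 3| + 1) * η + κ / 3) := by
      gcongr
    rw [abs_le] at k1 k3 k4 ⊢
    push_cast at k1 ⊢
    have e6 : F.scl n * ((|aN 5 * y2 * x2 ^ 3| + 1) * η + κ) =
        F.scl n * ((|aN 5 * y2 * x2 ^ 3| + 1) * η + κ / 3) + F.scl n * (κ / 3) +
          F.scl n * (κ / 3) := by ring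
    have e7 : F.scl n * (aN 5 * y * (x - x ^ 3) - bN 5 / 2 * y ^ ((4 : ℝ) / 3)) =
        F.scl n * (aN 5 * y * (x - x ^ 3)) - F.scl n * (bN 5 / 2 * y ^ ((4 : ℝ) / 3)) := by ring
    constructor <;> linarith [k1.1, k1.2, k3.1, k3.2, k4.1, k4.2]
  · have h34 : N = 3 ∨ N = 4 := by omega
    obtain ⟨C₀, d₁, hC₀, hd₁, -, hen⟩ := H34 h34 F
    have e2 := siz_dep hN hN5 F (x2 := x2) (y2 := y2) hx1 hy1 (min d₁ F.d₀) (lt_min hd₁ F.hd₀)
    have e3 : ∀ᶠ n in atTop, C₀ * r n < κ / 3 := by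
      have := hr.const_mul C₀
      rw [mul_zero] at this
      exact Sc.ev_small this (by positivity)
    filter_upwards [e1, e2, e3] with n h1 h2 h3 x hx y hy
    obtain ⟨g1, g2, g3, g4, g5⟩ := h2 x hx y hy
    have hx0 : 0 < x := hx1.trans_le hx.1
    have hy0 : 0 < y := hy1.trans_le hy.1
    have hscl := Sc.scl_pos F n
    have k1 := hen n (F.dep n x) (F.siz n y) g1 (g2.trans_le (min_le_left _ _)) g3 g5
    have k2 := hEr n x y hx.1 hy0 hy.2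
    have k3 := Sc.V_term hN hη.le F n hx0 hx.2 hy0 hy.2 (g2.trans_le (min_le_right _ _))
    have hbet : F.v n + bet N • WW F.e F.ρ (F.dep n x) (F.siz n y) =
        F.v n + WW F.e F.ρ (F.dep n x) (F.siz n y) := by
      unfold bet
      rw [if_neg h5, one_smul]
    rw [hbet]
    have hered : ered N (aN N) (bN N) x y =
        aN N * (alN N / 2 * (2 * x) ^ (2 - (N : ℝ)) * y ^ 2 - y * (x - x ^ 3)) := by
      unfold ered
      rw [if_neg h5]
    rw [hered]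
    have k4 := Sc.quad34 h34 F n hx0 hy0
    have k5 : C₀ * Er N (F.dep n x) (F.siz n y) ≤ F.scl n * (κ / 3) := by
      calc C₀ * Er N (F.dep n x) (F.siz n y) ≤ C₀ * (F.scl n * r n) := by gcongr
        _ = F.scl n * (C₀ * r n) := by ring
        _ ≤ _ := by gcongr
    have k6 : F.scl n * ((aN N * y2 * x2 ^ 3) * η + aN N * y2 * x2 ^ 2 * F.K * F.Dn n) ≤
        F.scl n * ((|aN N * y2 * x2 ^ 3| + 1) * η + κ / 3) := by
      gcongr
    have k7 : aN N * alN N / 2 * (F.siz n y ^ cc N) ^ 2 * (2 * F.dep n x) ^ (2 - (N : ℝ)) =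
        F.scl n * (aN N * (alN N / 2 * (2 * x) ^ (2 - (N : ℝ)) * y ^ 2)) := by
      have : aN N * alN N / 2 * (F.siz n y ^ cc N) ^ 2 * (2 * F.dep n x) ^ (2 - (N : ℝ)) =
        aN N * alN N / 2 * ((F.siz n y ^ cc N) ^ 2 * (2 * F.dep n x) ^ (2 - (N : ℝ))) := by ring
      rw [this, k4]
      ring
    rw [k7] at k1
    rw [abs_le] at k1 k3 ⊢
    have e6 : F.scl n * ((|aN N * y2 * x2 ^ 3| + 1) * η + κ) =
        F.scl n * ((|aN N * y2 * x2 ^ 3| + 1) * η + κ / 3) + F.scl n * (κ / 3) +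
          F.scl n * (κ / 3) := by ring
    have e7 : F.scl n * (aN N * (alN N / 2 * (2 * x) ^ (2 - (N : ℝ)) * y ^ 2 - y * (x - x ^ 3))) =
        F.scl n * (aN N * (alN N / 2 * (2 * x) ^ (2 - (N : ℝ)) * y ^ 2)) -
          F.scl n * (aN N * y * (x - x ^ 3)) := by ring
    have e8 : 0 < F.scl n * (κ / 3) := by positivity
    constructor <;> linarith [k1.1, k1.2, k3.1, k3.2]

namespace Sc

/-- `τ² ≤ κ · scl` -/
theorem tau_sq (hN : 3 ≤ N) (hN5 : N ≤ 5) {η : ℝ} (F : Fam N η) (y2 : ℝ) :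
    ∃ r : ℕ → ℝ, Tendsto r atTop (𝓝 0) ∧ ∀ n, ∀ y, 0 < y → y ≤ y2 →
      (F.siz n y ^ cc N) ^ 2 ≤ F.scl n * r n := by
  have hD := Dn_lim F
  have hg := F.hgam
  have hl := F.hlamb
  have hAA : ∃ k : ℕ → ℝ, Tendsto k atTop (𝓝 0) ∧ ∀ n, AA F n = F.gam * F.Dn n ^ 3 * k n := by
    by_cases h5 : N = 5
    · refine ⟨fun n => F.gam ^ 2 / F.lamb ^ 3 * F.Dn n ^ 6, ?_, fun n => ?_⟩
      · have := (hD.pow 6).const_mul (F.gam ^ 2 / F.lamb ^ 3)
        simpa using this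
      · unfold AA
        rw [if_pos h5]
        field_simp
    · refine ⟨fun n => F.Dn n ^ (N - 2), ?_, fun n => ?_⟩
      · have := hD.pow (N - 2)
        rwa [zero_pow (by omega)] at this
      · unfold AA
        rw [if_neg h5, mul_assoc, ← pow_add]
        congr 2
        omega
  obtain ⟨k, hk, hkA⟩ := hAA
  refine ⟨fun n => k n * y2 ^ 2, ?_, fun n y hy hy2 => ?_⟩
  · have := hk.mul_const (y2 ^ 2)
    rwa [zero_mul] at this
  · rw [siz_cc hN F n hy, scl_eq]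
    have hA := AA_pos F n
    have hDp := Dn_pos F n
    calc (AA F n * y) ^ 2 ≤ (AA F n * y2) ^ 2 := by gcongr
      _ = AA F n * (AA F n * y2 ^ 2) := by ring
      _ = AA F n * (F.gam * F.Dn n ^ 3 * k n * y2 ^ 2) := by rw [← hkA n]
      _ = _ := by ring

theorem tau_lim {η : ℝ} (F : Fam N η) : Tendsto (AA F) atTop (𝓝 0) := by
  have hD := Dn_lim F
  by_cases h5 : N = 5
  · have := (hD.pow 9).const_mul ((F.gam / F.lamb) ^ 3)
    have h : AA F = fun n => (F.gam / F.lamb) ^ 3 * F.Dn n ^ 9 := by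
      funext n; unfold AA; rw [if_pos h5]
    rw [h]
    simpa using this
  · have := (hD.pow (N + 1)).const_mul F.gam
    have h : AA F = fun n => F.gam * F.Dn n ^ (N + 1) := by
      funext n; unfold AA; rw [if_neg h5]
    rw [h]
    simpa using this

end Sc

theorem residual_scaled (hN : 3 ≤ N) (hN5 : N ≤ 5) {η : ℝ} (F : Fam N η) {x1 x2 y1 y2 : ℝ}
    (hx1 : 0 < x1) (hy1 : 0 < y1) : ∀ κ > 0, ∀ᶠ n in atTop,
      ∀ x ∈ Icc x1 x2, ∀ y ∈ Icc y1 y2, (F.siz n y ^ cc N) ^ 2 ≤ κ * F.scl n ∧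
        F.siz n y ^ cc N ≤ κ := by
  intro κ hκ
  obtain ⟨r, hr, hb⟩ := Sc.tau_sq hN hN5 F y2
  have e1 := Sc.ev_small hr hκ
  have e2 : ∀ᶠ n in atTop, Sc.AA F n * |y2| < κ := by
    have := (Sc.tau_lim F).mul_const |y2|
    rw [zero_mul] at this
    exact Sc.ev_small this hκ
  filter_upwards [e1, e2] with n h1 h2 x hx y hy
  have hy0 : 0 < y := hy1.trans_le hy.1
  have hscl := Sc.scl_pos F n
  refine ⟨(hb n y hy0 hy.2).trans ?_, ?_⟩
  · rw [mul_comm κ]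
    gcongr
  · rw [Sc.siz_cc hN F n hy0]
    refine le_trans ?_ h2.le
    have hA := Sc.AA_pos F n
    have : y ≤ |y2| := hy.2.trans (le_abs_self _)
    gcongr

end Pool.Agent.helper13.BN
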